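import Mathlib

set_option autoImplicit false
set_option linter.unusedSimpArgs false

open MvPolynomial

namespace Pool.Agent.Lib.MP_81f2fa_al

/-- polynomials in `x, y, z` -/
abbrev P : Type := MvPolynomial (Fin 3) ℤ

/-- `SL(2,ℂ)` -/
abbrev SL2 : Type := Matrix.SpecialLinearGroup (Fin 2) ℂ

/-- `f` is the trace polynomial of `w`. -/
def IsTracePoly (w : FreeGroup (Fin 2)) (f : MvPolynomial (Fin 3) ℤ) : Prop :=
  ∀ A B : Matrix.SpecialLinearGroup (Fin 2) ℂ,
    ((FreeGroup.lift ![A, B] w : Matrix.SpecialLinearGroup (Fin 2) ℂ) :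
        Matrix (Fin 2) (Fin 2) ℂ).trace =
      aeval ![(A : Matrix (Fin 2) (Fin 2) ℂ).trace, (B : Matrix (Fin 2) (Fin 2) ℂ).trace,
        ((A * B : Matrix.SpecialLinearGroup (Fin 2) ℂ) : Matrix (Fin 2) (Fin 2) ℂ).trace] f

theorem trace_mul_SL2 (A B : SL2) :
    ((A * B : SL2) : Matrix (Fin 2) (Fin 2) ℂ).trace =
      (A : Matrix (Fin 2) (Fin 2) ℂ) 0 0 * (B : Matrix (Fin 2) (Fin 2) ℂ) 0 0 +
      (A : Matrix (Fin 2) (Fin 2) ℂ) 0 1 * (B : Matrix (Fin 2) (Fin 2) ℂ) 1 0 +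
      (A : Matrix (Fin 2) (Fin 2) ℂ) 1 0 * (B : Matrix (Fin 2) (Fin 2) ℂ) 0 1 +
      (A : Matrix (Fin 2) (Fin 2) ℂ) 1 1 * (B : Matrix (Fin 2) (Fin 2) ℂ) 1 1 := by
  rw [Matrix.SpecialLinearGroup.coe_mul, Matrix.trace_fin_two, Matrix.mul_apply,
    Matrix.mul_apply, Fin.sum_univ_two, Fin.sum_univ_two]
  ring

theorem exists_SL2 (v : Fin 3 → ℂ) : ∃ A B : SL2,
    ![(A : Matrix (Fin 2) (Fin 2) ℂ).trace, (B : Matrix (Fin 2) (Fin 2) ℂ).trace,
        ((A * B : SL2) : Matrix (Fin 2) (Fin 2) ℂ).trace] = v := by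
  obtain ⟨t, ht⟩ : ∃ t : ℂ, t * t - v 2 * t + 1 = 0 := by
    obtain ⟨s, hs⟩ := IsSepClosed.exists_pow_nat_eq (v 2 * v 2 - 4) 2
    refine ⟨(v 2 + s) / 2, ?_⟩
    field_simp
    linear_combination hs
  have ht0 : t ≠ 0 := by
    rintro rfl
    simp at ht
  refine ⟨⟨!![v 0, -1; 1, 0], by simp [Matrix.det_fin_two]⟩,
    ⟨!![0, t; -t⁻¹, v 1], by simp [Matrix.det_fin_two, ht0]⟩, ?_⟩
  funext i
  fin_cases i
  · simp [Matrix.trace_fin_two]
  · simp [Matrix.trace_fin_two]
  · have := trace_mul_SL2 ⟨!![v 0, -1; 1, 0], by simp [Matrix.det_fin_two]⟩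
      ⟨!![0, t; -t⁻¹, v 1], by simp [Matrix.det_fin_two, ht0]⟩
    refine this.trans ?_
    simp
    field_simp
    linear_combination ht

theorem IsTracePoly.unique {w : FreeGroup (Fin 2)} {f g : MvPolynomial (Fin 3) ℤ}
    (hf : IsTracePoly w f) (hg : IsTracePoly w g) : f = g := by
  apply MvPolynomial.map_injective (Int.castRingHom ℂ) Int.cast_injective
  apply MvPolynomial.funext
  intro v
  obtain ⟨A, B, hv⟩ := exists_SL2 v
  have h := (hf A B).symm.trans (hg A B)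
  rw [hv] at h
  rw [MvPolynomial.eval_map, MvPolynomial.eval_map]
  simpa [MvPolynomial.aeval_def] using h

/-- coordinates with respect to `1, A, B, AB` -/
structure Q where
  c1 : P
  cA : P
  cB : P
  cAB : P

/-- variable `x` -/
noncomputable abbrev vx : P := X 0
/-- variable `y` -/
noncomputable abbrev vy : P := X 1
/-- variable `z` -/
noncomputable abbrev vz : P := X 2

/-- left multiplication by a letter -/
noncomputable def step : Fin 2 × Bool → Q → Q
  | (0, true), q => ⟨-q.cA, q.c1 + vx * q.cA, -q.cAB, q.cB + vx * q.cAB⟩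
  | (0, false), q => ⟨vx * q.c1 + q.cA, -q.c1, vx * q.cB + q.cAB, -q.cB⟩
  | (1, true), q => ⟨(vz - vx * vy) * q.cA - q.cB - vx * q.cAB, vy * q.cA + q.cAB,
      q.c1 + vx * q.cA + vy * q.cB + vz * q.cAB, -q.cA⟩
  | (1, false), q => ⟨vy * q.c1 - (vz - vx * vy) * q.cA + q.cB + vx * q.cAB, - q.cAB,
      -q.c1 - vx * q.cA - vz * q.cAB, vy * q.cAB + q.cA⟩

/-- coordinates of a word -/
noncomputable def coords : List (Fin 2 × Bool) → Q
  | [] => ⟨1, 0, 0, 0⟩
  | l :: w => step l (coords w)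

/-- the matrix with given coordinates -/
noncomputable def toMat (A B : SL2) (q : Q) : Matrix (Fin 2) (Fin 2) ℂ :=
  let v := ![(A : Matrix (Fin 2) (Fin 2) ℂ).trace, (B : Matrix (Fin 2) (Fin 2) ℂ).trace,
        ((A * B : SL2) : Matrix (Fin 2) (Fin 2) ℂ).trace]
  (aeval v q.c1) • (1 : Matrix (Fin 2) (Fin 2) ℂ) + (aeval v q.cA) • (A : Matrix (Fin 2) (Fin 2) ℂ) +
    (aeval v q.cB) • (B : Matrix (Fin 2) (Fin 2) ℂ) +
    (aeval v q.cAB) • ((A : Matrix (Fin 2) (Fin 2) ℂ) * (B : Matrix (Fin 2) (Fin 2) ℂ))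

theorem sl2_sq (A : SL2) : (A : Matrix (Fin 2) (Fin 2) ℂ) * A =
    (A : Matrix (Fin 2) (Fin 2) ℂ).trace • (A : Matrix (Fin 2) (Fin 2) ℂ) - 1 := by
  have hA := A.det_coe
  rw [Matrix.det_fin_two] at hA
  ext r s
  fin_cases r <;> fin_cases s
  · simp [Matrix.trace_fin_two, Matrix.mul_apply, Fin.sum_univ_two]
    linear_combination -hA
  · simp [Matrix.trace_fin_two, Matrix.mul_apply, Fin.sum_univ_two]
    ring
  · simp [Matrix.trace_fin_two, Matrix.mul_apply, Fin.sum_univ_two]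
    ring
  · simp [Matrix.trace_fin_two, Matrix.mul_apply, Fin.sum_univ_two]
    linear_combination -hA

theorem sl2_inv (A : SL2) : ((A⁻¹ : SL2) : Matrix (Fin 2) (Fin 2) ℂ) =
    (A : Matrix (Fin 2) (Fin 2) ℂ).trace • (1 : Matrix (Fin 2) (Fin 2) ℂ) - A := by
  rw [Matrix.SpecialLinearGroup.coe_inv, Matrix.adjugate_fin_two]
  ext r s
  fin_cases r <;> fin_cases s <;> simp [Matrix.trace_fin_two]

theorem sl2_comm (A B : SL2) : (B : Matrix (Fin 2) (Fin 2) ℂ) * A =
    (((A * B : SL2) : Matrix (Fin 2) (Fin 2) ℂ).trace -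
      (A : Matrix (Fin 2) (Fin 2) ℂ).trace * (B : Matrix (Fin 2) (Fin 2) ℂ).trace) •
        (1 : Matrix (Fin 2) (Fin 2) ℂ) +
    (B : Matrix (Fin 2) (Fin 2) ℂ).trace • (A : Matrix (Fin 2) (Fin 2) ℂ) +
    (A : Matrix (Fin 2) (Fin 2) ℂ).trace • (B : Matrix (Fin 2) (Fin 2) ℂ) -
    (A : Matrix (Fin 2) (Fin 2) ℂ) * B := by
  rw [Matrix.SpecialLinearGroup.coe_mul]
  ext r s
  fin_cases r <;> fin_cases s <;>
  · simp [Matrix.trace_fin_two, Matrix.mul_apply, Fin.sum_univ_two]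
    ring

theorem sl2_comm' (A B : SL2) : (B : Matrix (Fin 2) (Fin 2) ℂ) *
    ((A : Matrix (Fin 2) (Fin 2) ℂ) * B) =
    ((A * B : SL2) : Matrix (Fin 2) (Fin 2) ℂ).trace • (B : Matrix (Fin 2) (Fin 2) ℂ) -
    (A : Matrix (Fin 2) (Fin 2) ℂ).trace • (1 : Matrix (Fin 2) (Fin 2) ℂ) +
    (A : Matrix (Fin 2) (Fin 2) ℂ) := by
  rw [← mul_assoc, sl2_comm]
  simp only [sub_mul, add_mul, smul_mul_assoc, one_mul, mul_assoc, sl2_sq B, mul_sub,
    mul_smul_comm, mul_one]
  module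

theorem toMat_step (A B : SL2) (l : Fin 2 × Bool) (q : Q) :
    toMat A B (step l q) =
      ((FreeGroup.lift ![A, B] (FreeGroup.mk [l]) : SL2) : Matrix (Fin 2) (Fin 2) ℂ) *
        toMat A B q := by
  have hAAB : (A : Matrix (Fin 2) (Fin 2) ℂ) * ((A : Matrix (Fin 2) (Fin 2) ℂ) * B) =
      (A : Matrix (Fin 2) (Fin 2) ℂ).trace • ((A : Matrix (Fin 2) (Fin 2) ℂ) * B) - B := by
    rw [← mul_assoc, sl2_sq A, sub_mul, smul_mul_assoc, one_mul]
  rcases l with ⟨i, b⟩
  fin_cases i <;> cases b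
  · simp only [FreeGroup.lift_mk, toMat, step, List.map, List.prod_cons, List.prod_nil, mul_one,
      cond_true, cond_false]
    simp only [Fin.zero_eta, Fin.mk_one, Matrix.cons_val_zero, Matrix.cons_val_one, sl2_inv,
      sub_mul, mul_add, mul_smul_comm, smul_mul_assoc, one_mul, mul_one, sl2_sq A, hAAB]
    simp
    module
  · simp only [FreeGroup.lift_mk, toMat, step, List.map, List.prod_cons, List.prod_nil, mul_one,
      cond_true, cond_false]
    simp only [Fin.zero_eta, Fin.mk_one, Matrix.cons_val_zero, Matrix.cons_val_one, sl2_inv,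
      sub_mul, mul_add, mul_smul_comm, smul_mul_assoc, one_mul, mul_one, sl2_sq A, hAAB]
    simp
    module
  · simp only [FreeGroup.lift_mk, toMat, step, List.map, List.prod_cons, List.prod_nil, mul_one,
      cond_true, cond_false]
    simp only [Fin.zero_eta, Fin.mk_one, Matrix.cons_val_zero, Matrix.cons_val_one, sl2_inv,
      sub_mul, mul_add, mul_smul_comm, smul_mul_assoc, one_mul, mul_one, sl2_sq B, sl2_comm' A B,
      sl2_comm A B]
    simp
    module
  · simp only [FreeGroup.lift_mk, toMat, step, List.map, List.prod_cons, List.prod_nil, mul_one,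
      cond_true, cond_false]
    simp only [Fin.zero_eta, Fin.mk_one, Matrix.cons_val_zero, Matrix.cons_val_one, sl2_inv,
      sub_mul, mul_add, mul_smul_comm, smul_mul_assoc, one_mul, mul_one, sl2_sq B, sl2_comm' A B,
      sl2_comm A B]
    simp
    module

theorem toMat_coords (A B : SL2) (w : List (Fin 2 × Bool)) :
    toMat A B (coords w) =
      ((FreeGroup.lift ![A, B] (FreeGroup.mk w) : SL2) : Matrix (Fin 2) (Fin 2) ℂ) := by
  induction w with
  | nil => simp [toMat, coords, ← FreeGroup.one_eq_mk]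
  | cons l w ih =>
    rw [coords, toMat_step, ih, ← Matrix.SpecialLinearGroup.coe_mul, ← map_mul,
      FreeGroup.mul_mk]
    rfl

/-- the trace polynomial from the coordinates -/
noncomputable def trQ (q : Q) : P := 2 * q.c1 + vx * q.cA + vy * q.cB + vz * q.cAB

theorem trace_toMat (A B : SL2) (q : Q) :
    (toMat A B q).trace =
      aeval ![(A : Matrix (Fin 2) (Fin 2) ℂ).trace, (B : Matrix (Fin 2) (Fin 2) ℂ).trace,
        ((A * B : SL2) : Matrix (Fin 2) (Fin 2) ℂ).trace] (trQ q) := by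
  simp only [toMat, trQ, Matrix.trace_add, Matrix.trace_smul, Matrix.trace_one,
    Fintype.card_fin, map_add, map_mul, ← Matrix.SpecialLinearGroup.coe_mul]
  simp
  ring

theorem isTracePoly_trQ (w : List (Fin 2 × Bool)) :
    IsTracePoly (FreeGroup.mk w) (trQ (coords w)) := by
  intro A B
  rw [← toMat_coords, trace_toMat]

theorem existsUnique_tracePoly (w : FreeGroup (Fin 2)) :
    ∃! f : MvPolynomial (Fin 3) ℤ, IsTracePoly w f := by
  refine ⟨trQ (coords w.toWord), ?_, fun g hg => ?_⟩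
  · have := isTracePoly_trQ w.toWord
    rwa [FreeGroup.mk_toWord] at this
  · refine IsTracePoly.unique hg ?_
    have := isTracePoly_trQ w.toWord
    rwa [FreeGroup.mk_toWord] at this

/-- all coordinates have degree at most `n` in each variable -/
def DegLe (n : ℕ) (q : Q) : Prop := ∀ i : Fin 3,
  q.c1.degreeOf i ≤ n ∧ q.cA.degreeOf i ≤ n ∧ q.cB.degreeOf i ≤ n ∧ q.cAB.degreeOf i ≤ n

theorem deg_add {n : ℕ} {i : Fin 3} {f g : P} (hf : f.degreeOf i ≤ n) (hg : g.degreeOf i ≤ n) :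
    (f + g).degreeOf i ≤ n :=
  (degreeOf_add_le i f g).trans (max_le hf hg)

theorem deg_sub {n : ℕ} {i : Fin 3} {f g : P} (hf : f.degreeOf i ≤ n) (hg : g.degreeOf i ≤ n) :
    (f - g).degreeOf i ≤ n :=
  (degreeOf_sub_le i f g).trans (max_le hf hg)

theorem deg_neg {n : ℕ} {i : Fin 3} {f : P} (hf : f.degreeOf i ≤ n) :
    (-f).degreeOf i ≤ n := by
  rwa [degreeOf_neg]

theorem deg_X_mul {n : ℕ} {i j : Fin 3} {f : P} (hf : f.degreeOf i ≤ n) :
    ((X j : P) * f).degreeOf i ≤ n + 1 := by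
  refine (degreeOf_mul_le i _ _).trans ?_
  rw [degreeOf_X]
  split_ifs <;> omega

theorem deg_aux {n : ℕ} {i : Fin 3} {f : P} (hf : f.degreeOf i ≤ n) :
    ((vz - vx * vy) * f).degreeOf i ≤ n + 1 := by
  refine (degreeOf_mul_le i _ _).trans ?_
  have : (vz - vx * vy).degreeOf i ≤ 1 := by
    apply deg_sub
    · rw [degreeOf_X]
      split_ifs <;> omega
    · refine (degreeOf_mul_le i _ _).trans ?_
      rw [degreeOf_X, degreeOf_X]
      fin_cases i <;> simp
  omega

theorem DegLe.step {n : ℕ} {q : Q} (h : DegLe n q) (l : Fin 2 × Bool) :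
    DegLe (n + 1) (step l q) := by
  intro i
  obtain ⟨h1, h2, h3, h4⟩ := h i
  have g1 : q.c1.degreeOf i ≤ n + 1 := by omega
  have g2 : q.cA.degreeOf i ≤ n + 1 := by omega
  have g3 : q.cB.degreeOf i ≤ n + 1 := by omega
  have g4 : q.cAB.degreeOf i ≤ n + 1 := by omega
  rcases l with ⟨j, b⟩
  fin_cases j <;> cases b
  · exact ⟨deg_add (deg_X_mul h1) g2, deg_neg g1, deg_add (deg_X_mul h3) g4, deg_neg g3⟩
  · exact ⟨deg_neg g2, deg_add g1 (deg_X_mul h2), deg_neg g4, deg_add g3 (deg_X_mul h4)⟩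
  · exact ⟨deg_add (deg_add (deg_sub (deg_X_mul h1) (deg_aux h2)) g3) (deg_X_mul h4), deg_neg g4,
      deg_sub (deg_sub (deg_neg g1) (deg_X_mul h2)) (deg_X_mul h4), deg_add (deg_X_mul h4) g2⟩
  · exact ⟨deg_sub (deg_sub (deg_aux h2) g3) (deg_X_mul h4), deg_add (deg_X_mul h2) g4,
      deg_add (deg_add (deg_add g1 (deg_X_mul h2)) (deg_X_mul h3)) (deg_X_mul h4), deg_neg g2⟩

theorem degLe_coords (w : List (Fin 2 × Bool)) : DegLe w.length (coords w) := by
  induction w with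
  | nil =>
    intro i
    have : (1 : P).degreeOf i ≤ 0 := by
      rw [← C_1, degreeOf_C]
    refine ⟨this, ?_, ?_, ?_⟩ <;> simp [coords]
  | cons l w ih => exact ih.step l

theorem degreeOf_trQ_le (w : List (Fin 2 × Bool)) (i : Fin 3) :
    (trQ (coords w)).degreeOf i ≤ w.length + 1 := by
  obtain ⟨h1, h2, h3, h4⟩ := degLe_coords w i
  refine deg_add (deg_add (deg_add ?_ (deg_X_mul h2)) (deg_X_mul h3)) (deg_X_mul h4)
  have : (2 : P) * (coords w).c1 = C 2 * (coords w).c1 := by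
    congr 1
  rw [this]
  exact (degreeOf_C_mul_le _ _ _).trans (by omega)

theorem card_support_le (f : P) (d : ℕ) (h : ∀ i, f.degreeOf i ≤ d) :
    f.support.card ≤ (d + 1) ^ 3 := by
  classical
  have : f.support.card ≤ (Fintype.piFinset (fun _ : Fin 3 => Finset.range (d + 1))).card := by
    refine Finset.card_le_card_of_injOn (fun m => (m : Fin 3 → ℕ)) ?_ ?_
    · intro m hm
      simp only [Finset.mem_coe, Fintype.mem_piFinset, Finset.mem_range]
      intro i
      have := degreeOf_le_iff.1 (h i) m hm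
      omega
    · intro m _ m' _ hmm
      exact DFunLike.coe_injective hmm
  refine this.trans ?_
  rw [Fintype.card_piFinset]
  simp [Fin.prod_univ_three, pow_succ]

end Pool.Agent.Lib.MP_81f2fa_al
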