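import Mathlib
import Pool.Agent.Lib.MP_81f2fa_al.Trace

/-!
Generic coordinates of words over a commutative ring, with a parameter `d` for the determinant.
-/

set_option autoImplicit false

namespace Pool.Agent.Lib.MP_81f2fa_al

/-- letters -/
abbrev Lt : Type := Fin 2 × Bool

/-- coordinate vectors with respect to `1, A, B, AB` -/
@[ext] structure V4 (R : Type*) where
  a0 : R
  a1 : R
  a2 : R
  a3 : R

namespace V4

variable {R S : Type*} [CommRing R] [CommRing S]

instance : Add (V4 R) := ⟨fun p q => ⟨p.a0 + q.a0, p.a1 + q.a1, p.a2 + q.a2, p.a3 + q.a3⟩⟩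
instance : SMul R (V4 R) := ⟨fun c q => ⟨c * q.a0, c * q.a1, c * q.a2, c * q.a3⟩⟩

@[simp] theorem add_a0 (p q : V4 R) : (p + q).a0 = p.a0 + q.a0 := rfl
@[simp] theorem add_a1 (p q : V4 R) : (p + q).a1 = p.a1 + q.a1 := rfl
@[simp] theorem add_a2 (p q : V4 R) : (p + q).a2 = p.a2 + q.a2 := rfl
@[simp] theorem add_a3 (p q : V4 R) : (p + q).a3 = p.a3 + q.a3 := rfl
@[simp] theorem smul_a0 (c : R) (q : V4 R) : (c • q).a0 = c * q.a0 := rfl
@[simp] theorem smul_a1 (c : R) (q : V4 R) : (c • q).a1 = c * q.a1 := rfl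
@[simp] theorem smul_a2 (c : R) (q : V4 R) : (c • q).a2 = c * q.a2 := rfl
@[simp] theorem smul_a3 (c : R) (q : V4 R) : (c • q).a3 = c * q.a3 := rfl

/-- image under a ring homomorphism -/
def map (φ : R →+* S) (q : V4 R) : V4 S := ⟨φ q.a0, φ q.a1, φ q.a2, φ q.a3⟩

end V4

section
variable {R S : Type*} [CommRing R] [CommRing S]

/-- left multiplication by a letter (inverses replaced by adjugates) -/
def gstep (x y z d : R) : Lt → V4 R → V4 R
  | (0, true), q => ⟨-(d * q.a1), q.a0 + x * q.a1, -(d * q.a3), q.a2 + x * q.a3⟩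
  | (0, false), q => ⟨x * q.a0 + d * q.a1, -q.a0, x * q.a2 + d * q.a3, -q.a2⟩
  | (1, true), q => ⟨(z - x * y) * q.a1 - d * q.a2 - d * x * q.a3, y * q.a1 + d * q.a3,
      q.a0 + x * q.a1 + y * q.a2 + z * q.a3, -q.a1⟩
  | (1, false), q => ⟨y * q.a0 - (z - x * y) * q.a1 + d * q.a2 + d * x * q.a3, -(d * q.a3),
      -q.a0 - x * q.a1 - z * q.a3, y * q.a3 + q.a1⟩

/-- action of a word -/
def gact (x y z d : R) (w : List Lt) (q : V4 R) : V4 R := w.foldr (gstep x y z d) q

/-- the unit vector -/
def e0 : V4 R := ⟨1, 0, 0, 0⟩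

/-- trace functional -/
def gtr (x y z : R) (q : V4 R) : R := 2 * q.a0 + x * q.a1 + y * q.a2 + z * q.a3

/-- generic trace of a word -/
def gT (x y z d : R) (w : List Lt) : R := gtr x y z (gact x y z d w e0)

@[simp] theorem gact_nil (x y z d : R) (q : V4 R) : gact x y z d [] q = q := rfl

@[simp] theorem gact_cons (x y z d : R) (l : Lt) (w : List Lt) (q : V4 R) :
    gact x y z d (l :: w) q = gstep x y z d l (gact x y z d w q) := rfl

theorem gact_append (x y z d : R) (v w : List Lt) (q : V4 R) :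
    gact x y z d (v ++ w) q = gact x y z d v (gact x y z d w q) := by
  unfold gact
  rw [List.foldr_append]

theorem gstep_add (x y z d : R) (l : Lt) (p q : V4 R) :
    gstep x y z d l (p + q) = gstep x y z d l p + gstep x y z d l q := by
  obtain ⟨i, b⟩ := l
  fin_cases i <;> cases b <;> ext <;> simp [gstep] <;> ring

theorem gstep_smul (x y z d : R) (l : Lt) (c : R) (q : V4 R) :
    gstep x y z d l (c • q) = c • gstep x y z d l q := by
  obtain ⟨i, b⟩ := l
  fin_cases i <;> cases b <;> ext <;> simp [gstep] <;> ring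

theorem gact_add (x y z d : R) (w : List Lt) (p q : V4 R) :
    gact x y z d w (p + q) = gact x y z d w p + gact x y z d w q := by
  induction w with
  | nil => rfl
  | cons l w ih => rw [gact_cons, gact_cons, gact_cons, ih, gstep_add]

theorem gact_smul (x y z d : R) (w : List Lt) (c : R) (q : V4 R) :
    gact x y z d w (c • q) = c • gact x y z d w q := by
  induction w with
  | nil => rfl
  | cons l w ih => rw [gact_cons, gact_cons, ih, gstep_smul]

theorem gtr_add (x y z : R) (p q : V4 R) : gtr x y z (p + q) = gtr x y z p + gtr x y z q := by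
  simp only [gtr, V4.add_a0, V4.add_a1, V4.add_a2, V4.add_a3]
  ring

theorem gtr_smul (x y z c : R) (q : V4 R) : gtr x y z (c • q) = c * gtr x y z q := by
  simp only [gtr, V4.smul_a0, V4.smul_a1, V4.smul_a2, V4.smul_a3]
  ring

theorem gstep_map (φ : R →+* S) (x y z d : R) (l : Lt) (q : V4 R) :
    (gstep x y z d l q).map φ = gstep (φ x) (φ y) (φ z) (φ d) l (q.map φ) := by
  obtain ⟨i, b⟩ := l
  fin_cases i <;> cases b <;> ext <;> simp [gstep, V4.map]

theorem gact_map (φ : R →+* S) (x y z d : R) (w : List Lt) (q : V4 R) :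
    (gact x y z d w q).map φ = gact (φ x) (φ y) (φ z) (φ d) w (q.map φ) := by
  induction w with
  | nil => rfl
  | cons l w ih => rw [gact_cons, gact_cons, gstep_map, ih]

theorem gT_map (φ : R →+* S) (x y z d : R) (w : List Lt) :
    φ (gT x y z d w) = gT (φ x) (φ y) (φ z) (φ d) w := by
  unfold gT
  have h := gact_map φ x y z d w e0
  have he : (e0 : V4 R).map φ = e0 := by
    ext <;> simp [e0, V4.map]
  rw [he] at h
  rw [← h]
  have h2 : φ 2 = 2 := map_ofNat φ 2
  simp [gtr, V4.map, h2]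

/-- `B³ = (y²-1) B - y` -/
theorem gstep_b3 (x y z : R) (q : V4 R) :
    gstep x y z 1 (1, true) (gstep x y z 1 (1, true) (gstep x y z 1 (1, true) q)) =
      (y ^ 2 - 1) • gstep x y z 1 (1, true) q + (-y) • q := by
  ext <;> simp [gstep] <;> ring

/-- `A⁻³ = (x²-1) A⁻¹ - x` -/
theorem gstep_a3 (x y z : R) (q : V4 R) :
    gstep x y z 1 (0, false) (gstep x y z 1 (0, false) (gstep x y z 1 (0, false) q)) =
      (x ^ 2 - 1) • gstep x y z 1 (0, false) q + (-x) • q := by
  ext <;> simp [gstep] <;> ring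

/-- the pattern `a b³ a⁻³ b` -/
def pat : List Lt :=
  [(0, true), (1, true), (1, true), (1, true), (0, false), (0, false), (0, false), (1, true)]

/-- first replacement `a b a⁻¹ b` -/
def rp1 : List Lt := [(0, true), (1, true), (0, false), (1, true)]
/-- second replacement `a b b` -/
def rp2 : List Lt := [(0, true), (1, true), (1, true)]
/-- third replacement `a a⁻¹ b` -/
def rp3 : List Lt := [(0, true), (0, false), (1, true)]
/-- fourth replacement `a b` -/
def rp4 : List Lt := [(0, true), (1, true)]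

theorem gact_pat (x y z : R) (q : V4 R) :
    gact x y z 1 pat q =
      ((x ^ 2 - 1) * (y ^ 2 - 1)) • gact x y z 1 rp1 q +
      (-(x * (y ^ 2 - 1))) • gact x y z 1 rp2 q +
      (-(y * (x ^ 2 - 1))) • gact x y z 1 rp3 q +
      (x * y) • gact x y z 1 rp4 q := by
  simp only [pat, rp1, rp2, rp3, rp4, gact_cons, gact_nil, gstep_b3, gstep_a3, gstep_add,
    gstep_smul]
  ext <;> simp only [V4.add_a0, V4.add_a1, V4.add_a2, V4.add_a3, V4.smul_a0, V4.smul_a1,
    V4.smul_a2, V4.smul_a3] <;> ring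

theorem gT_pat (x y z : R) (v w : List Lt) :
    gT x y z 1 (v ++ pat ++ w) =
      ((x ^ 2 - 1) * (y ^ 2 - 1)) * gT x y z 1 (v ++ rp1 ++ w) +
      (-(x * (y ^ 2 - 1))) * gT x y z 1 (v ++ rp2 ++ w) +
      (-(y * (x ^ 2 - 1))) * gT x y z 1 (v ++ rp3 ++ w) +
      (x * y) * gT x y z 1 (v ++ rp4 ++ w) := by
  simp only [gT, gact_append, gact_pat, gact_add, gact_smul, gtr_add, gtr_smul]

end

/-- comparison with the coordinates over the polynomial ring -/
theorem coords_eq (w : List Lt) :
    gact vx vy vz 1 w e0 = ⟨(coords w).c1, (coords w).cA, (coords w).cB, (coords w).cAB⟩ := by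
  induction w with
  | nil => rfl
  | cons l w ih =>
    rw [gact_cons, ih, coords]
    obtain ⟨i, b⟩ := l
    fin_cases i <;> cases b <;> ext : 1 <;> simp [gstep, step]

theorem trQ_eq (w : List Lt) : trQ (coords w) = gT vx vy vz 1 w := by
  unfold gT
  rw [coords_eq]
  rfl

end Pool.Agent.Lib.MP_81f2fa_al
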