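import Mathlib
import Pool.Agent.Lib.MP_81f2fa_al.Gen

/-!
Degree in `z` and divisibility of the top coefficients.
-/

set_option autoImplicit false

open Polynomial

namespace Pool.Agent.Lib.MP_81f2fa_al

variable {K : Type*} [CommRing K]

/-- `f` has degree less than `n`. -/
def DL (n : ℕ) (f : K[X]) : Prop := ∀ j, n ≤ j → f.coeff j = 0

theorem DL.mono {n m : ℕ} {f : K[X]} (h : DL n f) (hnm : n ≤ m) : DL m f :=
  fun j hj => h j (hnm.trans hj)

theorem DL.add {n : ℕ} {f g : K[X]} (hf : DL n f) (hg : DL n g) : DL n (f + g) := by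
  intro j hj
  rw [coeff_add, hf j hj, hg j hj, add_zero]

theorem DL.neg {n : ℕ} {f : K[X]} (hf : DL n f) : DL n (-f) := by
  intro j hj
  rw [coeff_neg, hf j hj, neg_zero]

theorem DL.sub {n : ℕ} {f g : K[X]} (hf : DL n f) (hg : DL n g) : DL n (f - g) := by
  intro j hj
  rw [coeff_sub, hf j hj, hg j hj, sub_zero]

theorem DL.C_mul {n : ℕ} {f : K[X]} (c : K) (hf : DL n f) : DL n (C c * f) := by
  intro j hj
  rw [coeff_C_mul, hf j hj, mul_zero]

theorem DL.X_mul {n : ℕ} {f : K[X]} (hf : DL n f) : DL (n + 1) (X * f) := by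
  intro j hj
  obtain ⟨j, rfl⟩ : ∃ i, j = i + 1 := ⟨j - 1, by omega⟩
  rw [coeff_X_mul]
  exact hf j (by omega)

theorem DL.zero (n : ℕ) : DL n (0 : K[X]) := fun j _ => coeff_zero j

theorem DL.one : DL 1 (1 : K[X]) := by
  intro j hj
  rw [coeff_one]
  have : j ≠ 0 := by omega
  simp [this]

theorem DL.two_mul {n : ℕ} {f : K[X]} (hf : DL n f) : DL n (2 * f) := by
  intro j hj
  have : (2 : K[X]) = C 2 := (map_ofNat C 2).symm
  rw [this, coeff_C_mul, hf j hj, mul_zero]

theorem red_mid (A B E : List Lt) (h : FreeGroup.IsReduced (A ++ B ++ E)) :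
    FreeGroup.IsReduced B :=
  (List.isChain_append.1 (List.isChain_append.1 h).1).2.1

/-- number of transitions from an `a`-letter to a `b`-letter -/
def sig : List Lt → ℕ
  | [] => 0
  | [_] => 0
  | l :: l' :: w => (if l.1 = 0 ∧ l'.1 = 1 then 1 else 0) + sig (l' :: w)

theorem sig_cons_cons (l l' : Lt) (w : List Lt) :
    sig (l :: l' :: w) = (if l.1 = 0 ∧ l'.1 = 1 then 1 else 0) + sig (l' :: w) := rfl

/-- Degrees of the coordinates of a word ending in `b`. -/
theorem deg_word (x y : K) (v : List Lt) :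
    DL (sig (v ++ [(1, true)]) + 1) (gact (C x) (C y) X 1 (v ++ [(1, true)]) e0).a0 ∧
    DL (sig (v ++ [(1, true)]) + 1) (gact (C x) (C y) X 1 (v ++ [(1, true)]) e0).a2 ∧
    DL (sig (v ++ [(1, true)])) (gact (C x) (C y) X 1 (v ++ [(1, true)]) e0).a1 ∧
    DL (sig (v ++ [(1, true)])) (gact (C x) (C y) X 1 (v ++ [(1, true)]) e0).a3 ∧
    ((∀ l ∈ (v ++ [(1, true)]).head?, l.1 = 0) →
      DL (sig (v ++ [(1, true)])) (gact (C x) (C y) X 1 (v ++ [(1, true)]) e0).a0 ∧
      DL (sig (v ++ [(1, true)])) (gact (C x) (C y) X 1 (v ++ [(1, true)]) e0).a2) := by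
  induction v with
  | nil =>
    simp only [List.nil_append, gact_cons, gact_nil, gstep, e0, sig, List.head?_cons,
      Option.mem_def, Option.some.injEq, forall_eq']
    refine ⟨?_, ?_, ?_, ?_, ?_⟩
    · simpa using DL.zero 1
    · simpa using DL.one
    · simpa using DL.zero 0
    · simpa using DL.zero 0
    · intro h
      exact absurd h (by decide)
  | cons l v ih =>
    obtain ⟨h0, h2, h1, h3, hh⟩ := ih
    -- the head of the rest
    obtain ⟨l', w', hw⟩ : ∃ l' w', v ++ [(1, true)] = l' :: w' := by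
      cases v with
      | nil => exact ⟨_, _, rfl⟩
      | cons a v => exact ⟨_, _, rfl⟩
    have hsig : sig (l :: v ++ [(1, true)]) = (if l.1 = 0 ∧ l'.1 = 1 then 1 else 0) +
        sig (v ++ [(1, true)]) := by
      rw [List.cons_append, hw, sig_cons_cons]
    rw [hsig]
    rw [List.cons_append, gact_cons]
    set s := sig (v ++ [(1, true)]) with hs
    set q := gact (C x) (C y) X 1 (v ++ [(1, true)]) e0 with hq
    have hhead : (∀ m ∈ (v ++ [(1, true)]).head?, m.1 = 0) ↔ l'.1 = 0 := by
      rw [hw]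
      simp
    rw [hhead] at hh
    have hhead2 : (∀ m ∈ (l :: (v ++ [(1, true)])).head?, m.1 = 0) ↔ l.1 = 0 := by simp
    rw [hhead2]
    have hl' : l'.1 = 0 ∨ l'.1 = 1 := by
      rcases l' with ⟨i, b⟩
      fin_cases i
      · left; rfl
      · right; rfl
    -- product rules
    have m0 : ∀ {n : ℕ} {f : K[X]}, DL n f → DL n (C x * f) := fun h => h.C_mul x
    have m1 : ∀ {n : ℕ} {f : K[X]}, DL n f → DL n (C y * f) := fun h => h.C_mul y
    have m2 : ∀ {n : ℕ} {f : K[X]}, DL n f → DL n (1 * f) := fun h => by rwa [one_mul]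
    have m3 : ∀ {n : ℕ} {f : K[X]}, DL n f → DL n (1 * C x * f) := fun h => by
      rw [one_mul]; exact h.C_mul x
    have m4 : ∀ {n : ℕ} {f : K[X]}, DL n f → DL (n + 1) ((X - C x * C y) * f) := fun {n f} h => by
      rw [sub_mul, mul_assoc]
      exact h.X_mul.sub (((h.C_mul y).C_mul x).mono (Nat.le_succ n))
    have h1' := h1.mono (Nat.le_succ s)
    have h3' := h3.mono (Nat.le_succ s)
    obtain ⟨i, b⟩ := l
    rcases hl' with hl' | hl'
    · -- the rest starts with an a-letter
      obtain ⟨k0, k2⟩ := hh hl'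
      have hne : ¬ l'.1 = 1 := by rw [hl']; decide
      fin_cases i <;> cases b
      · simp only [Fin.zero_eta, Fin.isValue, hne, and_false, if_false, zero_add, gstep,
          forall_const]
        refine ⟨(m0 h0).add (m2 h1'), (m0 h2).add (m2 h3'), k0.neg, k2.neg, ?_⟩
        exact ⟨(m0 k0).add (m2 h1), (m0 k2).add (m2 h3)⟩
      · simp only [Fin.zero_eta, Fin.isValue, hne, and_false, if_false, zero_add, gstep,
          forall_const]
        refine ⟨(m2 h1').neg, (m2 h3').neg, k0.add (m0 h1), k2.add (m0 h3), ?_⟩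
        exact ⟨(m2 h1).neg, (m2 h3).neg⟩
      · simp only [Fin.mk_one, Fin.isValue, hne, and_false, if_false, zero_add, gstep]
        refine ⟨(((m1 h0).sub (m4 h1)).add (m2 h2)).add (m3 h3'),
          ((h0.neg.sub (m0 h1')).sub h3.X_mul), (m2 h3).neg, (m1 h3).add h1, ?_⟩
        intro h
        exact absurd h (by decide)
      · simp only [Fin.mk_one, Fin.isValue, hne, and_false, if_false, zero_add, gstep]
        refine ⟨((m4 h1).sub (m2 h2)).sub (m3 h3'),
          ((h0.add (m0 h1')).add (m1 h2)).add h3.X_mul, (m1 h1).add (m2 h3), h1.neg, ?_⟩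
        intro h
        exact absurd h (by decide)
    · fin_cases i <;> cases b
      · simp only [Fin.zero_eta, Fin.isValue, hl', and_true, if_true, gstep,
          forall_const]
        rw [show 1 + s = s + 1 by omega]
        have g0 : DL (s + 1) (C x * q.a0 + 1 * q.a1) := (m0 h0).add (m2 h1')
        have g2 : DL (s + 1) (C x * q.a2 + 1 * q.a3) := (m0 h2).add (m2 h3')
        exact ⟨g0.mono (Nat.le_succ _), g2.mono (Nat.le_succ _), h0.neg, h2.neg, g0, g2⟩
      · simp only [Fin.zero_eta, Fin.isValue, hl', and_true, if_true, gstep,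
          forall_const]
        rw [show 1 + s = s + 1 by omega]
        have g0 : DL (s + 1) (-(1 * q.a1)) := (m2 h1').neg
        have g2 : DL (s + 1) (-(1 * q.a3)) := (m2 h3').neg
        exact ⟨g0.mono (Nat.le_succ _), g2.mono (Nat.le_succ _), h0.add (m0 h1'),
          h2.add (m0 h3'), g0, g2⟩
      · simp only [Fin.mk_one, Fin.isValue, one_ne_zero, false_and, if_false, zero_add, gstep]
        refine ⟨(((m1 h0).sub (m4 h1)).add (m2 h2)).add (m3 h3'),
          ((h0.neg.sub (m0 h1')).sub h3.X_mul), (m2 h3).neg, (m1 h3).add h1, ?_⟩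
        intro h
        exact absurd h (by decide)
      · simp only [Fin.mk_one, Fin.isValue, one_ne_zero, false_and, if_false, zero_add, gstep]
        refine ⟨((m4 h1).sub (m2 h2)).sub (m3 h3'),
          ((h0.add (m0 h1')).add (m1 h2)).add h3.X_mul, (m1 h1).add (m2 h3), h1.neg, ?_⟩
        intro h
        exact absurd h (by decide)

/-- The trace of a word ending in `b` has degree at most the number of transitions. -/
theorem deg_trace (x y : K) (v : List Lt) :
    DL (sig (v ++ [(1, true)]) + 1) (gT (C x) (C y) X 1 (v ++ [(1, true)])) := by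
  obtain ⟨h0, h2, h1, h3, -⟩ := deg_word x y v
  unfold gT gtr
  exact ((h0.two_mul.add ((h1.C_mul x).mono (Nat.le_succ _))).add (h2.C_mul y)).add h3.X_mul

/-- `f` has degree at most `s` and the coefficient of `X^(s-k)` is divisible by `D^(T-k)`. -/
def Fil (D : K) (s T : ℕ) (f : K[X]) : Prop :=
  (∀ j, s < j → f.coeff j = 0) ∧ ∀ j, j ≤ s → D ^ (T - (s - j)) ∣ f.coeff j

theorem Fil.add {D : K} {s T : ℕ} {f g : K[X]} (hf : Fil D s T f) (hg : Fil D s T g) :
    Fil D s T (f + g) := by
  refine ⟨fun j hj => ?_, fun j hj => ?_⟩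
  · rw [coeff_add, hf.1 j hj, hg.1 j hj, add_zero]
  · rw [coeff_add]
    exact dvd_add (hf.2 j hj) (hg.2 j hj)

theorem Fil.C_mul {D : K} {s T : ℕ} {f : K[X]} (c : K) (hf : Fil D s T f) :
    Fil D s T (C c * f) := by
  refine ⟨fun j hj => ?_, fun j hj => ?_⟩
  · rw [coeff_C_mul, hf.1 j hj, mul_zero]
  · rw [coeff_C_mul]
    exact Dvd.dvd.mul_left (hf.2 j hj) c

theorem Fil.D_mul {D : K} {s T : ℕ} {f : K[X]} (c : K) (hf : Fil D s T f) :
    Fil D s (T + 1) (C (D * c) * f) := by
  refine ⟨fun j hj => ?_, fun j hj => ?_⟩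
  · rw [coeff_C_mul, hf.1 j hj, mul_zero]
  · rw [coeff_C_mul]
    have h := hf.2 j hj
    have h2 : D ^ (T + 1 - (s - j)) ∣ D * D ^ (T - (s - j)) := by
      rw [← pow_succ']
      exact pow_dvd_pow _ (by omega)
    refine h2.trans ?_
    rw [mul_assoc]
    exact mul_dvd_mul_left D (Dvd.dvd.mul_left h c)

theorem Fil.succ {D : K} {s T : ℕ} {f : K[X]} (hf : Fil D s T f) :
    Fil D (s + 1) (T + 1) f := by
  refine ⟨fun j hj => hf.1 j (by omega), fun j hj => ?_⟩
  rcases Nat.lt_or_ge s j with h | h
  · rw [hf.1 j h]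
    exact dvd_zero _
  · have h1 := hf.2 j h
    have e : T + 1 - (s + 1 - j) = T - (s - j) := by omega
    rw [e]
    exact h1

theorem Fil.zero {D : K} {s : ℕ} {f : K[X]} (h : DL (s + 1) f) : Fil D s 0 f := by
  refine ⟨fun j hj => h j hj, fun j _ => ?_⟩
  simp

/-- Concatenations of `T` blocks, each ending with the pattern. -/
inductive Pat : ℕ → List Lt → Prop
  | nil : Pat 0 []
  | succ (T : ℕ) (v w : List Lt) : Pat T w → Pat (T + 1) (v ++ pat ++ w)

/-- The list ends with the letter `b`. -/
def EndB (w : List Lt) : Prop := ∃ v, w = v ++ [(1, true)]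

theorem EndB.append_left {w : List Lt} (v : List Lt) (h : EndB w) : EndB (v ++ w) := by
  obtain ⟨v', rfl⟩ := h
  exact ⟨v ++ v', (List.append_assoc _ _ _).symm⟩

theorem Pat.endB {T : ℕ} {w : List Lt} (h : Pat T w) : w = [] ∨ EndB w := by
  induction h with
  | nil => exact Or.inl rfl
  | succ T v w _ ih =>
    right
    rcases ih with rfl | ih
    · exact ⟨v ++ [(0, true), (1, true), (1, true), (1, true), (0, false), (0, false), (0, false)],
        by simp [pat]⟩
    · exact ih.append_left _

theorem sig_append_cons (v : List Lt) (l : Lt) (R R' : List Lt) :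
    sig (v ++ l :: R) + sig (l :: R') = sig (v ++ l :: R') + sig (l :: R) := by
  induction v with
  | nil =>
    simp only [List.nil_append]
    omega
  | cons a v ih =>
    cases v with
    | nil =>
      simp only [List.cons_append, List.nil_append, sig_cons_cons] at ih ⊢
      omega
    | cons b v =>
      simp only [List.cons_append, sig_cons_cons] at ih ⊢
      omega

theorem sig_b (w : List Lt) (b : Bool) : sig ((1, b) :: w) = sig ((1, true) :: w) := by
  cases w with
  | nil => rfl
  | cons l w => simp [sig_cons_cons]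

theorem sig_pat (v w : List Lt) :
    sig (v ++ pat ++ w) = sig (v ++ rp1 ++ w) ∧
    sig (v ++ pat ++ w) = sig (v ++ rp2 ++ w) + 1 ∧
    sig (v ++ pat ++ w) = sig (v ++ rp3 ++ w) + 1 ∧
    sig (v ++ pat ++ w) = sig (v ++ rp4 ++ w) + 1 := by
  simp only [pat, rp1, rp2, rp3, rp4, List.append_assoc, List.cons_append, List.nil_append]
  refine ⟨?_, ?_, ?_, ?_⟩
  · have h := sig_append_cons v (0, true)
      ((1, true) :: (1, true) :: (1, true) :: (0, false) :: (0, false) :: (0, false) ::
        (1, true) :: w) ((1, true) :: (0, false) :: (1, true) :: w)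
    simp only [sig_cons_cons] at h
    simp at h
    omega
  · have h := sig_append_cons v (0, true)
      ((1, true) :: (1, true) :: (1, true) :: (0, false) :: (0, false) :: (0, false) ::
        (1, true) :: w) ((1, true) :: (1, true) :: w)
    simp only [sig_cons_cons] at h
    simp at h
    omega
  · have h := sig_append_cons v (0, true)
      ((1, true) :: (1, true) :: (1, true) :: (0, false) :: (0, false) :: (0, false) ::
        (1, true) :: w) ((0, false) :: (1, true) :: w)
    simp only [sig_cons_cons] at h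
    simp at h
    omega
  · have h := sig_append_cons v (0, true)
      ((1, true) :: (1, true) :: (1, true) :: (0, false) :: (0, false) :: (0, false) ::
        (1, true) :: w) ((1, true) :: w)
    simp only [sig_cons_cons] at h
    simp at h
    omega

/-- Divisibility of the top coefficients. -/
theorem fil_trace (x y : K) {T : ℕ} {w : List Lt} (h : Pat T w) :
    ∀ v : List Lt, EndB (v ++ w) →
      Fil ((x - 1) * (y - 1)) (sig (v ++ w)) T (gT (C x) (C y) X 1 (v ++ w)) := by
  induction h with
  | nil =>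
    intro v hv
    rw [List.append_nil] at hv ⊢
    obtain ⟨v', rfl⟩ := hv
    exact Fil.zero (deg_trace x y v')
  | succ T v' w hw ih =>
    intro v _
    have hend : ∀ R : List Lt, EndB R → EndB (v ++ v' ++ R ++ w) := by
      intro R hR
      rcases hw.endB with rfl | hw'
      · rw [List.append_nil]
        exact hR.append_left _
      · exact hw'.append_left _
    have i1 := ih (v ++ v' ++ rp1) (hend _ ⟨[(0, true), (1, true), (0, false)], rfl⟩)
    have i2 := ih (v ++ v' ++ rp2) (hend _ ⟨[(0, true), (1, true)], rfl⟩)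
    have i3 := ih (v ++ v' ++ rp3) (hend _ ⟨[(0, true), (0, false)], rfl⟩)
    have i4 := ih (v ++ v' ++ rp4) (hend _ ⟨[(0, true)], rfl⟩)
    obtain ⟨s1, s2, s3, s4⟩ := sig_pat (v ++ v') w
    have e : v ++ (v' ++ pat ++ w) = v ++ v' ++ pat ++ w := by simp
    rw [e, gT_pat]
    rw [← s1] at i1
    have j2 := i2.succ
    have j3 := i3.succ
    have j4 := i4.succ
    rw [← s2] at j2
    rw [← s3] at j3
    rw [← s4] at j4
    refine ((Fil.add ?_ ?_).add ?_).add ?_
    · have := i1.D_mul ((x + 1) * (y + 1))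
      have e1 : ((C x ^ 2 - 1) * (C y ^ 2 - 1) : K[X]) =
          C ((x - 1) * (y - 1) * ((x + 1) * (y + 1))) := by
        simp only [C_mul, C_sub, C_add, C_1]
        ring
      rw [e1]
      exact this
    · have := j2.C_mul (-(x * (y ^ 2 - 1)))
      have e1 : (-(C x * (C y ^ 2 - 1)) : K[X]) = C (-(x * (y ^ 2 - 1))) := by
        simp only [C_mul, C_sub, C_neg, C_pow, C_1]
      rw [e1]
      exact this
    · have := j3.C_mul (-(y * (x ^ 2 - 1)))
      have e1 : (-(C y * (C x ^ 2 - 1)) : K[X]) = C (-(y * (x ^ 2 - 1))) := by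
        simp only [C_mul, C_sub, C_neg, C_pow, C_1]
      rw [e1]
      exact this
    · have := j4.C_mul (x * y)
      have e1 : (C x * C y : K[X]) = C (x * y) := by
        simp only [C_mul]
      rw [e1]
      exact this

end Pool.Agent.Lib.MP_81f2fa_al
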