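import Mathlib
import Pool.Agent.Lib.MP_81f2fa_al.Filt

/-!
The top form of the trace polynomial and nonvanishing of the top coefficients.
-/

set_option autoImplicit false
set_option linter.unusedSimpArgs false

open Polynomial

namespace Pool.Agent.Lib.MP_81f2fa_al

section
variable {R : Type*} [CommRing R]

/-- the rank one matrix attached to the first letter (for words ending in `b`) -/
def vec (Z : R) : Lt → V4 R
  | (0, true) => ⟨0, 0, 0, 1⟩
  | (0, false) => ⟨0, 0, 1, -1⟩
  | (1, true) => ⟨0, 0, 1, 0⟩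
  | (1, false) => ⟨0, 0, -Z, 1⟩

/-- number of adjacent pairs `a b⁻¹` or `b a⁻¹` -/
def opp : List Lt → ℕ
  | [] => 0
  | [_] => 0
  | l :: l' :: w => (if (l = (0, true) ∧ l' = (1, false)) ∨ (l = (1, true) ∧ l' = (0, false))
      then 1 else 0) + opp (l' :: w)

theorem opp_cons_cons (l l' : Lt) (w : List Lt) :
    opp (l :: l' :: w) = (if (l = (0, true) ∧ l' = (1, false)) ∨ (l = (1, true) ∧ l' = (0, false))
      then 1 else 0) + opp (l' :: w) := rfl

/-- product of a letter with the vector of a noncancelling letter -/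
theorem gstep_vec (Z : R) (l l' : Lt) (h : l.1 = l'.1 → l.2 = l'.2) :
    ∃ (k α β : ℕ), gstep 1 1 Z 0 l (vec Z l') = ((-1) ^ k * Z ^ α * (1 - Z) ^ β) • vec Z l ∧
      α + β + (if l = (1, true) then 0 else 1) =
        (if l' = (1, true) then 0 else 1) + (if l.1 = 0 ∧ l'.1 = 1 then 1 else 0) ∧
      (if (l = (0, true) ∧ l' = (1, false)) ∨ (l = (1, true) ∧ l' = (0, false))
        then 1 else 0) ≤ β := by
  obtain ⟨i, b⟩ := l
  obtain ⟨i', b'⟩ := l'
  fin_cases i <;> cases b <;> fin_cases i' <;> cases b'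
  · refine ⟨0, 0, 0, ?_, by simp, by simp⟩
    ext <;> simp [gstep, vec]
  · simp at h
  · refine ⟨1, 1, 0, ?_, by simp, by simp⟩
    ext <;> simp [gstep, vec]
  · refine ⟨0, 0, 0, ?_, by simp, by simp⟩
    ext <;> simp [gstep, vec]
  · simp at h
  · refine ⟨0, 0, 0, ?_, by simp, by simp⟩
    ext <;> simp [gstep, vec]
  · refine ⟨0, 0, 1, ?_, by simp, by simp⟩
    ext <;> simp [gstep, vec]
    ring
  · refine ⟨0, 0, 0, ?_, by simp, by simp⟩
    ext <;> simp [gstep, vec]
  · refine ⟨1, 0, 0, ?_, by simp, by simp⟩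
    ext <;> simp [gstep, vec]
  · refine ⟨0, 0, 0, ?_, by simp, by simp⟩
    ext <;> simp [gstep, vec]
  · refine ⟨0, 0, 0, ?_, by simp, by simp⟩
    ext <;> simp [gstep, vec]
  · simp at h
  · refine ⟨0, 0, 1, ?_, by simp, by simp⟩
    ext <;> simp [gstep, vec]
    ring
  · refine ⟨0, 1, 0, ?_, by simp, by simp⟩
    ext <;> simp [gstep, vec]
  · simp at h
  · refine ⟨0, 0, 0, ?_, by simp, by simp⟩
    ext <;> simp [gstep, vec]

/-- Closed form of a reduced word ending in `b` when the determinants are zero. -/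
theorem gact_vec (Z : R) (v : List Lt) (hred : FreeGroup.IsReduced (v ++ [(1, true)])) :
    ∃ (l : Lt) (w' : List Lt) (k α β : ℕ), v ++ [(1, true)] = l :: w' ∧
      gact 1 1 Z 0 (v ++ [(1, true)]) e0 = ((-1) ^ k * Z ^ α * (1 - Z) ^ β) • vec Z l ∧
      α + β + (if l = (1, true) then 0 else 1) = sig (v ++ [(1, true)]) ∧
      opp (v ++ [(1, true)]) ≤ β := by
  induction v with
  | nil =>
    refine ⟨(1, true), [], 0, 0, 0, rfl, ?_, by simp [sig], by simp [opp]⟩
    ext <;> simp [gstep, vec, e0]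
  | cons l v ih =>
    have hred' : FreeGroup.IsReduced (v ++ [(1, true)]) :=
      red_mid [l] _ [] (by simpa using hred)
    obtain ⟨l', w', k, α, β, hw, hg, hs, ho⟩ := ih hred'
    have hll : l.1 = l'.1 → l.2 = l'.2 := by
      rw [List.cons_append, hw, FreeGroup.isReduced_cons_cons] at hred
      exact hred.1
    obtain ⟨k', α', β', h1, h2, h3⟩ := gstep_vec Z l l' hll
    refine ⟨l, v ++ [(1, true)], k + k', α + α', β + β', rfl, ?_, ?_, ?_⟩
    · rw [List.cons_append, gact_cons, hg, gstep_smul, h1]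
      ext <;> simp only [V4.smul_a0, V4.smul_a1, V4.smul_a2, V4.smul_a3] <;> ring
    · rw [List.cons_append, hw, sig_cons_cons, ← hw, ← hs]
      omega
    · rw [List.cons_append, hw, opp_cons_cons, ← hw]
      omega

/-- Closed form of the trace of a cyclically reduced word ending in `b` at determinant zero. -/
theorem gT_top (Z : R) (v : List Lt) (hred : FreeGroup.IsReduced (v ++ [(1, true)]))
    (hh : ∀ l ∈ (v ++ [(1, true)]).head?, l ≠ (1, false)) :
    ∃ (k α β : ℕ), gT 1 1 Z 0 (v ++ [(1, true)]) = (-1) ^ k * Z ^ α * (1 - Z) ^ β ∧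
      α + β = sig (v ++ [(1, true)]) ∧ opp (v ++ [(1, true)]) ≤ β := by
  obtain ⟨l, w', k, α, β, hw, hg, hs, ho⟩ := gact_vec Z v hred
  have hl : l ≠ (1, false) := hh l (by rw [hw]; rfl)
  unfold gT
  rw [hg, gtr_smul]
  obtain ⟨i, b⟩ := l
  fin_cases i <;> cases b
  · refine ⟨k, α, β + 1, ?_, by simpa [add_assoc] using hs, by omega⟩
    simp only [Fin.zero_eta, Fin.isValue, gtr, vec]
    ring
  · refine ⟨k, α + 1, β, ?_, ?_, ho⟩
    · simp only [Fin.zero_eta, Fin.isValue, gtr, vec]
      ring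
    · simp at hs
      omega
  · exact absurd rfl hl
  · refine ⟨k, α, β, ?_, by simpa using hs, ho⟩
    simp only [Fin.mk_one, Fin.isValue, gtr, vec]
    ring

/-- Homogeneity. -/
theorem hom_gact (t x y z d : R) (w : List Lt) :
    (gact (t * x) (t * y) (t ^ 2 * z) (t ^ 2 * d) w e0).a0 =
      t ^ w.length * (gact x y z d w e0).a0 ∧
    t * (gact (t * x) (t * y) (t ^ 2 * z) (t ^ 2 * d) w e0).a1 =
      t ^ w.length * (gact x y z d w e0).a1 ∧
    t * (gact (t * x) (t * y) (t ^ 2 * z) (t ^ 2 * d) w e0).a2 =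
      t ^ w.length * (gact x y z d w e0).a2 ∧
    t ^ 2 * (gact (t * x) (t * y) (t ^ 2 * z) (t ^ 2 * d) w e0).a3 =
      t ^ w.length * (gact x y z d w e0).a3 := by
  induction w with
  | nil => simp [e0]
  | cons l w ih =>
    obtain ⟨h0, h1, h2, h3⟩ := ih
    rw [gact_cons, gact_cons, List.length_cons]
    set q := gact (t * x) (t * y) (t ^ 2 * z) (t ^ 2 * d) w e0
    set q' := gact x y z d w e0
    obtain ⟨i, b⟩ := l
    fin_cases i <;> cases b
    · simp only [Fin.zero_eta, Fin.isValue, gstep]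
      refine ⟨?_, ?_, ?_, ?_⟩
      · linear_combination t * x * h0 + t * d * h1
      · linear_combination -t * h0
      · linear_combination t * x * h2 + t * d * h3
      · linear_combination -t * h2
    · simp only [Fin.zero_eta, Fin.isValue, gstep]
      refine ⟨?_, ?_, ?_, ?_⟩
      · linear_combination -t * d * h1
      · linear_combination t * h0 + t * x * h1
      · linear_combination -t * d * h3
      · linear_combination t * h2 + t * x * h3
    · simp only [Fin.mk_one, Fin.isValue, gstep]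
      refine ⟨?_, ?_, ?_, ?_⟩
      · linear_combination t * y * h0 - t * (z - x * y) * h1 + t * d * h2 + t * d * x * h3
      · linear_combination -t * d * h3
      · linear_combination -t * h0 - t * x * h1 - t * z * h3
      · linear_combination t * y * h3 + t * h1
    · simp only [Fin.mk_one, Fin.isValue, gstep]
      refine ⟨?_, ?_, ?_, ?_⟩
      · linear_combination t * (z - x * y) * h1 - t * d * h2 - t * d * x * h3
      · linear_combination t * y * h1 + t * d * h3
      · linear_combination t * h0 + t * x * h1 + t * y * h2 + t * z * h3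
      · linear_combination -t * h1

theorem hom_gT (t x y z d : R) (w : List Lt) :
    gT (t * x) (t * y) (t ^ 2 * z) (t ^ 2 * d) w = t ^ w.length * gT x y z d w := by
  obtain ⟨h0, h1, h2, h3⟩ := hom_gact t x y z d w
  unfold gT gtr
  linear_combination 2 * h0 + x * h1 + y * h2 + z * h3

end

/-- The generic trace polynomial in `ℤ[x][y][z]`. -/
noncomputable def tri (w : List Lt) : ℤ[X][X][X] := gT (C (C X)) (C X) X 1 w

/-- Nonvanishing of coefficients can be checked on the top form. -/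
theorem coeff_tri_ne (w : List Lt) (j : ℕ) (h : (gT (1 : ℤ[X]) 1 X 0 w).coeff j ≠ 0) :
    (tri w).coeff j ≠ 0 := by
  intro h0
  apply h
  -- the family in `d`
  have key : ∀ s : ℝ, 0 < s → ((gT (1 : ℤ[X][X]) 1 X (C X) w).coeff j).eval₂
      (Int.castRingHom ℝ) s = 0 := by
    intro s hs
    obtain ⟨t, ht0, ht⟩ : ∃ t : ℝ, t ≠ 0 ∧ t ^ 2 * s = 1 := by
      refine ⟨(Real.sqrt s)⁻¹, inv_ne_zero (Real.sqrt_pos.2 hs).ne', ?_⟩
      rw [inv_pow, Real.sq_sqrt hs.le, inv_mul_cancel₀ hs.ne']
    have hs0 : s ≠ 0 := hs.ne'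
    -- first specialisation
    let ψ : ℤ[X][X] →+* ℝ := eval₂RingHom (eval₂RingHom (Int.castRingHom ℝ) t) t
    have e1 : mapRingHom ψ (tri w) = gT (C t) (C t) X 1 w := by
      have := gT_map (R := ℤ[X][X][X]) (S := ℝ[X]) (mapRingHom ψ) (C (C X)) (C X) X 1 w
      rw [tri, this]
      congr 1
      · simp [ψ]
      · simp [ψ]
      · simp
      · simp
    have e2 : (gT (C t) (C t) X 1 w : ℝ[X]).coeff j = 0 := by
      rw [← e1, coe_mapRingHom, coeff_map, h0, map_zero]
    -- homogeneity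
    have e3 := hom_gT (C t) (1 : ℝ[X]) 1 (C s * X) (C s) w
    have e4 : (C t : ℝ[X]) ^ 2 * C s = 1 := by
      rw [← C_pow, ← C_mul, ht, C_1]
    rw [mul_one, ← mul_assoc, e4, one_mul] at e3
    rw [e3, ← C_pow, coeff_C_mul] at e2
    have e5 : (gT (1 : ℝ[X]) 1 (C s * X) (C s) w).coeff j = 0 := by
      rcases mul_eq_zero.1 e2 with h1 | h1
      · exact absurd h1 (pow_ne_zero _ ht0)
      · exact h1
    -- rescaling of the variable
    have e6 : gT (1 : ℝ[X]) 1 (C s * X) (C s) w = (gT (1 : ℝ[X]) 1 X (C s) w).comp (C s * X) := by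
      have := gT_map (compRingHom (C s * X)) (1 : ℝ[X]) 1 X (C s) w
      simp only [coe_compRingHom_apply, one_comp, X_comp, C_comp] at this
      exact this.symm
    rw [e6, comp_C_mul_X_coeff] at e5
    have e7 : (gT (1 : ℝ[X]) 1 X (C s) w).coeff j = 0 := by
      rcases mul_eq_zero.1 e5 with h1 | h1
      · exact h1
      · exact absurd h1 (pow_ne_zero _ hs0)
    have e8 : mapRingHom (eval₂RingHom (Int.castRingHom ℝ) s) (gT (1 : ℤ[X][X]) 1 X (C X) w) =
        gT (1 : ℝ[X]) 1 X (C s) w := by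
      have := gT_map (R := ℤ[X][X]) (S := ℝ[X]) (mapRingHom (eval₂RingHom (Int.castRingHom ℝ) s))
        1 1 X (C X) w
      rw [this]
      congr 1
      · simp
      · simp
      · simp
      · simp
    rw [← e8, coe_mapRingHom, coeff_map] at e7
    exact e7
  have hzero : (gT (1 : ℤ[X][X]) 1 X (C X) w).coeff j = 0 := by
    set g := (gT (1 : ℤ[X][X]) 1 X (C X) w).coeff j
    have hg : g.map (Int.castRingHom ℝ) = 0 := by
      apply eq_zero_of_infinite_isRoot
      refine (Set.Ioi_infinite (0 : ℝ)).mono ?_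
      intro s hs
      have := key s hs
      rw [← eval_map] at this
      exact this
    exact (Polynomial.map_eq_zero_iff (RingHom.injective_int (Int.castRingHom ℝ))).1 hg
  have e9 : mapRingHom (evalRingHom (0 : ℤ)) (gT (1 : ℤ[X][X]) 1 X (C X) w) =
      gT (1 : ℤ[X]) 1 X 0 w := by
    have := gT_map (R := ℤ[X][X]) (S := ℤ[X]) (mapRingHom (evalRingHom (0 : ℤ))) 1 1 X (C X) w
    rw [this]
    congr 1
    · simp
    · simp
    · simp
    · simp
  rw [← e9, coe_mapRingHom, coeff_map, hzero, map_zero]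

theorem opp_append (v w : List Lt) : opp v + opp w ≤ opp (v ++ w) := by
  induction v with
  | nil => simp [opp]
  | cons l v ih =>
    cases v with
    | nil =>
      cases w with
      | nil => simp [opp]
      | cons l' w =>
        rw [List.cons_append, List.nil_append, opp_cons_cons]
        simp only [opp]
        omega
    | cons l' v =>
      rw [List.cons_append, List.cons_append, opp_cons_cons, opp_cons_cons]
      rw [List.cons_append] at ih
      omega

theorem Pat.le_opp {T : ℕ} {w : List Lt} (h : Pat T w) : T ≤ opp w := by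
  induction h with
  | nil => exact Nat.zero_le _
  | succ T v w _ ih =>
    have h1 := opp_append (v ++ pat) w
    have h2 := opp_append v pat
    have h3 : opp pat = 1 := by decide
    omega

/-- Nonvanishing of the top coefficients. -/
theorem coeff_tri_ne' {T : ℕ} {w : List Lt} (hp : Pat T w) (hend : EndB w)
    (hred : FreeGroup.IsReduced w) (hh : ∀ l ∈ w.head?, l ≠ (1, false)) :
    T ≤ sig w ∧ ∀ k ≤ T, (tri w).coeff (sig w - k) ≠ 0 := by
  obtain ⟨v, rfl⟩ := hend
  obtain ⟨m, α, β, hg, hs, ho⟩ := gT_top (X : ℤ[X]) v hred hh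
  have hT := hp.le_opp
  refine ⟨by omega, fun k hk => ?_⟩
  apply coeff_tri_ne
  rw [hg, ← hs]
  have e1 : ((-1 : ℤ[X]) ^ m * X ^ α * (1 - X) ^ β) = C ((-1) ^ m) * (((1 - X) ^ β) * X ^ α) := by
    rw [C_pow, C_neg, C_1]
    ring
  have e2 : α + β - k = (β - k) + α := by omega
  rw [e1, e2, coeff_C_mul, coeff_mul_X_pow]
  have e3 : ((1 - X : ℤ[X]) ^ β) = C ((-1) ^ β) * (X + C (-1)) ^ β := by
    rw [C_pow, C_neg, C_1, ← mul_pow]
    congr 1
    ring
  rw [e3, coeff_C_mul, coeff_X_add_C_pow]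
  have h1 : ((-1 : ℤ) ^ m) ≠ 0 := pow_ne_zero _ (by norm_num)
  have h2 : ((-1 : ℤ) ^ β) ≠ 0 := pow_ne_zero _ (by norm_num)
  have h3 : ((-1 : ℤ) ^ (β - (β - k))) ≠ 0 := pow_ne_zero _ (by norm_num)
  have h4 : ((β.choose (β - k) : ℕ) : ℤ) ≠ 0 := by
    have := Nat.choose_pos (n := β) (k := β - k) (Nat.sub_le _ _)
    exact_mod_cast this.ne'
  exact mul_ne_zero h1 (mul_ne_zero h2 (mul_ne_zero h3 h4))

end Pool.Agent.Lib.MP_81f2fa_al
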