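import Mathlib
import Pool.Agent.Lib.MP_81f2fa_al.Top

/-!
Counting monomials.
-/

set_option autoImplicit false

open Polynomial

namespace Pool.Agent.Lib.MP_81f2fa_al

theorem coeff_euler {R : Type*} [CommRing R] (p : R[X]) (e n : ℕ) :
    (X * derivative p - C (e : R) * p).coeff n = ((n : R) - e) * p.coeff n := by
  rw [coeff_sub, coeff_C_mul]
  rcases n with _ | n
  · simp
  · rw [coeff_X_mul, coeff_derivative]
    push_cast
    ring

/-- A nonzero polynomial divisible by `(X-1)^m` has more than `m` terms. -/
theorem support_card_ge {R : Type*} [CommRing R] [IsDomain R] [CharZero R] (m : ℕ) :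
    ∀ p : R[X], p ≠ 0 → (X - 1) ^ m ∣ p → m + 1 ≤ p.support.card := by
  induction m with
  | zero =>
    intro p hp _
    exact Finset.card_pos.2 (support_nonempty.2 hp)
  | succ m ih =>
    intro p hp hd
    obtain ⟨e, he⟩ := support_nonempty.2 hp
    set q := X * derivative p - C (e : R) * p with hq
    have hsupp : q.support = p.support.erase e := by
      ext n
      rw [mem_support_iff, coeff_euler, Finset.mem_erase, mem_support_iff]
      constructor
      · intro h
        refine ⟨?_, fun h0 => h (by rw [h0, mul_zero])⟩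
        rintro rfl
        exact h (by rw [sub_self, zero_mul])
      · rintro ⟨h1, h2⟩
        refine mul_ne_zero (fun h3 => h1 ?_) h2
        exact_mod_cast sub_eq_zero.1 h3
    have hqd : (X - 1) ^ m ∣ q := by
      obtain ⟨r, hr⟩ := hd
      have h1 : (X - 1 : R[X]) ^ m ∣ derivative p := by
        rw [hr, derivative_mul]
        apply dvd_add
        · rw [derivative_pow]
          simp only [Nat.add_sub_cancel]
          exact Dvd.dvd.mul_right (Dvd.dvd.mul_right (Dvd.intro_left _ rfl) _) _
        · exact Dvd.dvd.mul_right (pow_dvd_pow _ (Nat.le_succ m)) _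
      have h2 : (X - 1 : R[X]) ^ m ∣ p := by
        rw [hr]
        exact Dvd.dvd.mul_right (pow_dvd_pow _ (Nat.le_succ m)) _
      exact dvd_sub (Dvd.dvd.mul_left h1 _) (Dvd.dvd.mul_left h2 _)
    have hq0 : q ≠ 0 := by
      intro h0
      rw [h0, support_zero] at hsupp
      have hs : p.support = {e} := by
        ext n
        rw [Finset.mem_singleton]
        constructor
        · intro hn
          by_contra hne
          have : n ∈ p.support.erase e := Finset.mem_erase.2 ⟨hne, hn⟩
          rw [← hsupp] at this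
          simp at this
        · rintro rfl
          exact he
      have h1 : p.eval 1 = p.coeff e := by
        rw [eval_eq_sum, Polynomial.sum, hs, Finset.sum_singleton, one_pow, mul_one]
      obtain ⟨r, hr⟩ := hd
      have h2 : p.eval 1 = 0 := by
        rw [hr, eval_mul, eval_pow, eval_sub, eval_X, eval_one, sub_self,
          zero_pow (Nat.succ_ne_zero m), zero_mul]
      rw [h1] at h2
      exact (mem_support_iff.1 he) h2
    have h1 := ih q hq0 hqd
    rw [hsupp, Finset.card_erase_of_mem he] at h1
    omega

/-- Number of terms of a polynomial in two variables divisible by `((x-1)(y-1))^m`. -/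
theorem count2 (g : ℤ[X][X]) (hg : g ≠ 0) (m : ℕ) (h : ((C X - 1) * (X - 1)) ^ m ∣ g) :
    (m + 1) * (m + 1) ≤ ∑ j ∈ g.support, (g.coeff j).support.card := by
  rw [mul_pow] at h
  have h1 : m + 1 ≤ g.support.card := support_card_ge m g hg (dvd_of_mul_left_dvd h)
  have h2 : ∀ j ∈ g.support, m + 1 ≤ (g.coeff j).support.card := by
    intro j hj
    apply support_card_ge m _ (mem_support_iff.1 hj)
    have h3 := dvd_of_mul_right_dvd h
    have e : (C X - 1 : ℤ[X][X]) ^ m = C ((X - 1) ^ m) := by
      rw [C_pow, C_sub, C_1]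
    rw [e, C_dvd_iff_dvd_coeff] at h3
    exact h3 j
  calc (m + 1) * (m + 1) ≤ g.support.card * (m + 1) := Nat.mul_le_mul_right _ h1
    _ = ∑ j ∈ g.support, (m + 1) := by rw [Finset.sum_const, smul_eq_mul]
    _ ≤ _ := Finset.sum_le_sum h2

/-- Polynomials in three variables as iterated polynomials. -/
noncomputable def toTri : MvPolynomial (Fin 3) ℤ →+* ℤ[X][X][X] :=
  MvPolynomial.eval₂Hom (S₁ := ℤ[X][X][X]) (Int.castRingHom ℤ[X][X][X])
    (![C (C X), C X, X] : Fin 3 → ℤ[X][X][X])

theorem toTri_coeff (f : MvPolynomial (Fin 3) ℤ) (m : Fin 3 →₀ ℕ) :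
    (((toTri f).coeff (m 2)).coeff (m 1)).coeff (m 0) = MvPolynomial.coeff m f := by
  induction f using MvPolynomial.induction_on' with
  | monomial u a =>
    have h1 : toTri (MvPolynomial.monomial u a) =
        C (C (C a * X ^ (u 0)) * X ^ (u 1)) * X ^ (u 2) := by
      have e : (Int.castRingHom ℤ[X][X][X]) a = C (C (C a)) := by simp
      unfold toTri
      rw [MvPolynomial.coe_eval₂Hom, MvPolynomial.eval₂_monomial, Finsupp.prod_fintype _ _
        (fun i => pow_zero _), Fin.prod_univ_three, e]
      simp only [Matrix.cons_val_zero, Matrix.cons_val_one, Matrix.cons_val_two,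
        Matrix.head_cons, Matrix.tail_cons, C_mul, C_pow]
      ring
    rw [h1, coeff_C_mul, coeff_X_pow, MvPolynomial.coeff_monomial]
    by_cases h2 : m 2 = u 2
    · simp only [h2, if_true, mul_one]
      rw [coeff_C_mul, coeff_X_pow]
      by_cases h3 : m 1 = u 1
      · simp only [h3, if_true, mul_one]
        rw [coeff_C_mul, coeff_X_pow]
        by_cases h4 : m 0 = u 0
        · have : u = m := by
            ext i
            fin_cases i
            · exact h4.symm
            · exact h3.symm
            · exact h2.symm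
          simp [h4, this]
        · have : ¬ u = m := fun h => h4 (by rw [h])
          simp [h4, this]
      · have : ¬ u = m := fun h => h3 (by rw [h])
        simp [h3, this]
    · have : ¬ u = m := fun h => h2 (by rw [h])
      simp [h2, this]
  | add p q hp hq =>
    rw [map_add, coeff_add, coeff_add, coeff_add, MvPolynomial.coeff_add, hp, hq]

theorem toTri_X0 : toTri (MvPolynomial.X 0) = C (C X) := by
  rw [toTri, MvPolynomial.coe_eval₂Hom, MvPolynomial.eval₂_X]
  rfl

theorem toTri_X1 : toTri (MvPolynomial.X 1) = C X := by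
  rw [toTri, MvPolynomial.coe_eval₂Hom, MvPolynomial.eval₂_X]
  rfl

theorem toTri_X2 : toTri (MvPolynomial.X 2) = X := by
  rw [toTri, MvPolynomial.coe_eval₂Hom, MvPolynomial.eval₂_X]
  rfl

theorem toTri_trQ (w : List Lt) : toTri (trQ (coords w)) = tri w := by
  rw [trQ_eq]
  have := gT_map (R := MvPolynomial (Fin 3) ℤ) (S := ℤ[X][X][X]) toTri vx vy vz 1 w
  rw [this, toTri_X0, toTri_X1, toTri_X2, map_one, tri]

/-- Lower bound for the number of monomials. -/
theorem card_support_ge {T : ℕ} {w : List Lt} (hp : Pat T w) (hend : EndB w)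
    (hred : FreeGroup.IsReduced w) (hh : ∀ l ∈ w.head?, l ≠ (1, false)) :
    ∑ k ∈ Finset.range (T + 1), (T - k + 1) * (T - k + 1) ≤ (trQ (coords w)).support.card := by
  obtain ⟨hT, hne⟩ := coeff_tri_ne' hp hend hred hh
  have hfil := fil_trace (K := ℤ[X][X]) (C X) X hp [] (by simpa using hend)
  rw [List.nil_append] at hfil
  set f := trQ (coords w) with hf
  set s := sig w with hs
  let g : ℕ → ℤ[X][X] := fun k => (tri w).coeff (s - k)
  have hdvd : ∀ k ≤ T, ((C X - 1) * (X - 1)) ^ (T - k) ∣ g k := by
    intro k hk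
    have := hfil.2 (s - k) (Nat.sub_le _ _)
    have e : T - (s - (s - k)) = T - k := by omega
    rw [e] at this
    exact this
  let S : Finset (Σ _ : ℕ, Σ _ : ℕ, ℕ) :=
    (Finset.range (T + 1)).sigma (fun k => (g k).support.sigma (fun j => ((g k).coeff j).support))
  have hS : ∑ k ∈ Finset.range (T + 1), (T - k + 1) * (T - k + 1) ≤ S.card := by
    rw [Finset.card_sigma]
    refine Finset.sum_le_sum (fun k hk => ?_)
    rw [Finset.card_sigma]
    have hk' : k ≤ T := by
      have := Finset.mem_range.1 hk
      omega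
    exact count2 (g k) (hne k hk') (T - k) (hdvd k hk')
  refine hS.trans ?_
  refine Finset.card_le_card_of_injOn
    (fun t => Finsupp.equivFunOnFinite.symm ![t.2.2, t.2.1, s - t.1]) ?_ ?_
  · rintro ⟨k, j, i⟩ ht
    simp only [S, Finset.coe_sigma, Set.mem_sigma_iff, Finset.mem_coe, mem_support_iff] at ht
    rw [Finset.mem_coe, MvPolynomial.mem_support_iff, ← toTri_coeff, hf, toTri_trQ]
    simpa [g] using ht.2.2
  · rintro ⟨k, j, i⟩ ht ⟨k', j', i'⟩ ht' h
    simp only [S, Finset.coe_sigma, Set.mem_sigma_iff, Finset.mem_coe, Finset.mem_range] at ht ht'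
    have h1 := Finsupp.equivFunOnFinite.symm.injective h
    have h2 := congrFun h1 0
    have h3 := congrFun h1 1
    have h4 := congrFun h1 2
    simp at h2 h3 h4
    have e : k = k' := by omega
    subst e
    subst h2
    subst h3
    rfl

end Pool.Agent.Lib.MP_81f2fa_al
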