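import Mathlib
import Pool.Agent.Lib.MP_81f2fa_al.Trace

set_option autoImplicit false
set_option linter.unusedSimpArgs false

open MvPolynomial

namespace Pool.Agent.Lib.MP_81f2fa_al

/-- Chebyshev-type recursion -/
def V {R : Type} [CommRing R] : ℕ → R → R
  | 0, _ => 0
  | 1, _ => 1
  | n + 2, t => t * V (n + 1) t - V n t

theorem map_V {R S : Type} [CommRing R] [CommRing S] (φ : R →+* S) (n : ℕ) (t : R) :
    φ (V n t) = V n (φ t) := by
  induction n using Nat.twoStepInduction with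
  | zero => simp [V]
  | one => simp [V]
  | more n ih1 ih2 => simp [V, ih1, ih2]

theorem pow_eq_V (A : SL2) (n : ℕ) :
    ((A ^ (n + 1) : SL2) : Matrix (Fin 2) (Fin 2) ℂ) =
      V (n + 1) (A : Matrix (Fin 2) (Fin 2) ℂ).trace • (A : Matrix (Fin 2) (Fin 2) ℂ) -
      V n (A : Matrix (Fin 2) (Fin 2) ℂ).trace • (1 : Matrix (Fin 2) (Fin 2) ℂ) := by
  induction n with
  | zero => simp [V]
  | succ n ih =>
    rw [pow_succ, Matrix.SpecialLinearGroup.coe_mul, ih, sub_mul, smul_mul_assoc, sl2_sq,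
      smul_mul_assoc, one_mul]
    have : V (n + 1 + 1) (A : Matrix (Fin 2) (Fin 2) ℂ).trace =
      (A : Matrix (Fin 2) (Fin 2) ℂ).trace * V (n + 1) (A : Matrix (Fin 2) (Fin 2) ℂ).trace -
        V n (A : Matrix (Fin 2) (Fin 2) ℂ).trace := rfl
    rw [this]
    module

/-- the words -/
def wd (i j k : ℕ) : List (Fin 2 × Bool) :=
  List.replicate (i + 2) (0, true) ++ (List.replicate (j + 2) (1, true) ++
    (List.replicate (k + 1) [((0 : Fin 2), true), ((1 : Fin 2), true)]).flatten)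

theorem wd_length (i j k : ℕ) : (wd i j k).length = (i + 2) + ((j + 2) + 2 * (k + 1)) := by
  simp [wd]
  ring

theorem mem_wd (i j k : ℕ) : ∀ l ∈ wd i j k, l.2 = true := by
  intro l hl
  simp only [wd, List.mem_append, List.mem_replicate, List.mem_flatten] at hl
  rcases hl with ⟨-, rfl⟩ | ⟨-, rfl⟩ | ⟨s, ⟨-, rfl⟩, hs⟩
  · rfl
  · rfl
  · simp only [List.mem_cons, List.not_mem_nil, or_false] at hs
    rcases hs with rfl | rfl <;> rfl

theorem wd_cyc (i j k : ℕ) : FreeGroup.IsCyclicallyReduced (wd i j k) := by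
  constructor
  · rw [FreeGroup.IsReduced]
    have h := mem_wd i j k
    apply List.isChain_iff_forall_rel_of_append_cons_cons.2
    intro a b l1 l2 he _
    rw [h a (by rw [he]; simp), h b (by rw [he]; simp)]
  · intro a ha b hb _
    rw [mem_wd i j k a (List.mem_of_mem_getLast? ha), mem_wd i j k b (List.mem_of_mem_head? hb)]

theorem lift_wd (A B : SL2) (i j k : ℕ) :
    FreeGroup.lift ![A, B] (FreeGroup.mk (wd i j k)) = A ^ (i + 2) * B ^ (j + 2) * (A * B) ^ (k + 1) := by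
  rw [FreeGroup.lift_mk]
  simp only [wd, List.map_append, List.prod_append, List.map_replicate, List.prod_replicate,
    List.map_flatten, List.prod_flatten]
  simp [mul_assoc]

/-- the explicit trace polynomial -/
noncomputable def fP (i j k : ℕ) : P :=
  V (i + 2) vx * V (j + 2) vy * V (k + 1) vz * (vz * vz - 2)
  - V (i + 2) vx * V (j + 2) vy * V k vz * vz
  - V (i + 2) vx * V (j + 1) vy * V (k + 1) vz * (vx * vz - vy)
  + V (i + 2) vx * V (j + 1) vy * V k vz * vx
  - V (i + 1) vx * V (j + 2) vy * V (k + 1) vz * (vy * vz - vx)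
  + V (i + 1) vx * V (j + 2) vy * V k vz * vy
  + V (i + 1) vx * V (j + 1) vy * V (k + 1) vz * vz
  - 2 * (V (i + 1) vx * V (j + 1) vy * V k vz)

theorem isTracePoly_fP (i j k : ℕ) : IsTracePoly (FreeGroup.mk (wd i j k)) (fP i j k) := by
  intro A B
  rw [lift_wd]
  have hAAB : (A : Matrix (Fin 2) (Fin 2) ℂ) * ((A : Matrix (Fin 2) (Fin 2) ℂ) * B) =
      (A : Matrix (Fin 2) (Fin 2) ℂ).trace • ((A : Matrix (Fin 2) (Fin 2) ℂ) * B) - B := by
    rw [← mul_assoc, sl2_sq A, sub_mul, smul_mul_assoc, one_mul]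
  have hABAB : (A : Matrix (Fin 2) (Fin 2) ℂ) * ((B : Matrix (Fin 2) (Fin 2) ℂ) *
      ((A : Matrix (Fin 2) (Fin 2) ℂ) * B)) =
      ((A * B : SL2) : Matrix (Fin 2) (Fin 2) ℂ).trace • ((A : Matrix (Fin 2) (Fin 2) ℂ) * B) - 1 := by
    rw [← mul_assoc]
    exact sl2_sq (A * B)
  set v := ![(A : Matrix (Fin 2) (Fin 2) ℂ).trace, (B : Matrix (Fin 2) (Fin 2) ℂ).trace,
        ((A * B : SL2) : Matrix (Fin 2) (Fin 2) ℂ).trace] with hv
  have hx : aeval v vx = (A : Matrix (Fin 2) (Fin 2) ℂ).trace := by simp [hv]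
  have hy : aeval v vy = (B : Matrix (Fin 2) (Fin 2) ℂ).trace := by simp [hv]
  have hz : aeval v vz = ((A * B : SL2) : Matrix (Fin 2) (Fin 2) ℂ).trace := by simp [hv]
  have hV : ∀ (n : ℕ) (t : P), aeval v (V n t) = V n (aeval v t) := fun n t =>
    map_V (aeval v : P →ₐ[ℤ] ℂ).toRingHom n t
  rw [Matrix.SpecialLinearGroup.coe_mul, Matrix.SpecialLinearGroup.coe_mul,
    pow_eq_V, pow_eq_V, pow_eq_V]
  simp only [fP, map_add, map_sub, map_mul, hV, hx, hy, hz]
  have h2 : aeval v (2 : P) = 2 := by simp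
  rw [h2]
  have htr : ((A : Matrix (Fin 2) (Fin 2) ℂ) * B).trace =
      ((A * B : SL2) : Matrix (Fin 2) (Fin 2) ℂ).trace := rfl
  rw [Matrix.SpecialLinearGroup.coe_mul A B] at hz htr ⊢
  rw [Matrix.SpecialLinearGroup.coe_mul A B] at hABAB
  have hBAB := sl2_comm' A B
  rw [Matrix.SpecialLinearGroup.coe_mul A B] at hBAB
  simp only [sub_mul, mul_sub, mul_add, smul_mul_assoc, mul_smul_comm, one_mul, mul_one, mul_assoc,
    hAAB, hBAB, sl2_sq A, smul_sub, smul_add, smul_smul, Matrix.trace_sub,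
    Matrix.trace_add, Matrix.trace_smul, Matrix.trace_one, Fintype.card_fin, smul_eq_mul]
  push_cast
  ring

end Pool.Agent.Lib.MP_81f2fa_al
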