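import Mathlib
import Pool.Agent.Lib.MP_81f2fa_al.Count

/-!
Conjugation, cyclic reduction and occurrences of the pattern.
-/

set_option autoImplicit false

namespace Pool.Agent.Lib.MP_81f2fa_al

theorem IsTracePoly.conj {h : FreeGroup (Fin 2)} {f : MvPolynomial (Fin 3) ℤ}
    (hf : IsTracePoly h f) (g : FreeGroup (Fin 2)) : IsTracePoly (g * h * g⁻¹) f := by
  intro A B
  rw [← hf A B, map_mul, map_mul, map_inv]
  set G := FreeGroup.lift ![A, B] g
  set H := FreeGroup.lift ![A, B] h
  rw [Matrix.SpecialLinearGroup.coe_mul, Matrix.trace_mul_comm,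
    ← Matrix.SpecialLinearGroup.coe_mul]
  have e : G⁻¹ * (G * H) = H := inv_mul_cancel_left G H
  rw [e]

theorem IsTracePoly.ne_zero {h : FreeGroup (Fin 2)} {f : MvPolynomial (Fin 3) ℤ}
    (hf : IsTracePoly h f) : f ≠ 0 := by
  rintro rfl
  have := hf 1 1
  have e : FreeGroup.lift ![(1 : Matrix.SpecialLinearGroup (Fin 2) ℂ), 1] h = 1 := by
    have : FreeGroup.lift ![(1 : Matrix.SpecialLinearGroup (Fin 2) ℂ), 1] =
        (1 : FreeGroup (Fin 2) →* Matrix.SpecialLinearGroup (Fin 2) ℂ) := by
      ext i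
      fin_cases i <;> simp
    rw [this]
    rfl
  rw [e, map_zero] at this
  simp at this

/-- `T` disjoint occurrences of the pattern. -/
def Occ (T : ℕ) (c : List Lt) : Prop := ∃ q r, c = q ++ r ∧ Pat T q

theorem Pat.append_left {T : ℕ} {q : List Lt} (h : Pat T q) (hT : 1 ≤ T) (v : List Lt) :
    Pat T (v ++ q) := by
  cases h with
  | nil => omega
  | succ T u w hw =>
    have : v ++ (u ++ pat ++ w) = (v ++ u) ++ pat ++ w := by simp
    rw [this]
    exact Pat.succ T (v ++ u) w hw

theorem Occ.zero (c : List Lt) : Occ 0 c := ⟨[], c, rfl, Pat.nil⟩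

theorem Occ.append {T : ℕ} {c : List Lt} (h : Occ T c) (v w : List Lt) :
    Occ T (v ++ c ++ w) := by
  rcases Nat.eq_zero_or_pos T with rfl | hT
  · exact Occ.zero _
  · obtain ⟨q, r, rfl, hq⟩ := h
    exact ⟨v ++ q, r ++ w, by simp, hq.append_left hT v⟩

theorem Occ.succ {T : ℕ} {c : List Lt} (h : Occ T c) (v w : List Lt) :
    Occ (T + 1) (v ++ pat ++ w ++ c) := by
  have h1 : Occ T (w ++ c) := by
    have := h.append w []
    rwa [List.append_nil] at this
  obtain ⟨q, r, hqr, hq⟩ := h1
  refine ⟨v ++ pat ++ q, r, ?_, Pat.succ T v q hq⟩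
  rw [List.append_assoc, hqr]
  simp

theorem Occ.mono {T T' : ℕ} {c : List Lt} (h : Occ T c) (hT : T' ≤ T) : Occ T' c := by
  obtain ⟨q, r, rfl, hq⟩ := h
  induction hq generalizing T' r with
  | nil =>
    have : T' = 0 := by omega
    subst this
    exact Occ.zero _
  | succ T v w hw ih =>
    rcases Nat.eq_zero_or_pos T' with rfl | hT'
    · exact Occ.zero _
    · obtain ⟨T'', rfl⟩ : ∃ k, T' = k + 1 := ⟨T' - 1, by omega⟩
      have h1 := ih (T' := T'') (by omega) r
      have h2 := h1.succ v []
      simpa using h2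

/-- A word with `T` disjoint occurrences of the pattern in its cyclic reduction has a trace
polynomial with many monomials. -/
theorem many_monomials {T : ℕ} (hT : 1 ≤ T) {c : List Lt} (hc : FreeGroup.IsCyclicallyReduced c)
    (ho : Occ T c) : ∃ f : MvPolynomial (Fin 3) ℤ, IsTracePoly (FreeGroup.mk c) f ∧
      ∑ k ∈ Finset.range (T + 1), (T - k + 1) * (T - k + 1) ≤ f.support.card := by
  obtain ⟨q, r, rfl, hq⟩ := ho
  obtain ⟨hred, hcyc⟩ := hc
  have hqB : EndB q := by
    rcases hq.endB with rfl | h
    · have := hq.le_opp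
      simp [opp] at this
      omega
    · exact h
  have hw : Pat T (r ++ q) := hq.append_left hT r
  have hend : EndB (r ++ q) := hqB.append_left r
  obtain ⟨q', hq'⟩ := hqB
  have hlast : q.getLast? = some (1, true) := by rw [hq']; simp
  have hne : q ≠ [] := by rw [hq']; simp
  rw [FreeGroup.IsReduced, List.isChain_append] at hred
  obtain ⟨h1, h2, h3⟩ := hred
  have hred' : FreeGroup.IsReduced (r ++ q) := by
    rw [FreeGroup.IsReduced, List.isChain_append]
    refine ⟨h2, h1, ?_⟩
    intro x hx y hy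
    apply hcyc x _ y _
    · rw [Option.mem_def] at hx ⊢
      rw [List.getLast?_append, hx]
      rfl
    · rw [Option.mem_def] at hy ⊢
      rw [List.head?_append, hy]
      rfl
  have hh : ∀ l ∈ (r ++ q).head?, l ≠ (1, false) := by
    intro l hl
    rintro rfl
    rcases r with _ | ⟨a, r⟩
    · simp only [List.nil_append] at hl
      have := hcyc (1, true) (by simpa using hlast) (1, false) (by simpa using hl) rfl
      simp at this
    · simp only [List.cons_append, List.head?_cons, Option.mem_def, Option.some.injEq] at hl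
      subst hl
      have := h3 (1, true) hlast (1, false) (by simp) rfl
      simp at this
  refine ⟨trQ (coords (r ++ q)), ?_, card_support_ge hw hend hred' hh⟩
  have h4 := (isTracePoly_trQ (r ++ q)).conj (FreeGroup.mk r)⁻¹
  have h5 : (FreeGroup.mk r)⁻¹ * FreeGroup.mk (r ++ q) * (FreeGroup.mk r)⁻¹⁻¹ =
      FreeGroup.mk (q ++ r) := by
    rw [inv_inv, ← FreeGroup.mul_mk, ← FreeGroup.mul_mk]
    group
  rwa [h5] at h4

/-- Cyclic reduction to depth `K`. -/
theorem depth (l : List Lt) (hl : FreeGroup.IsReduced l) (K : ℕ) (hK : 2 * K ≤ l.length) :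
    (∃ p c, p.length = K ∧ l = p ++ c ++ FreeGroup.invRev p) ∨
    (∃ p c, p.length < K ∧ l = p ++ c ++ FreeGroup.invRev p ∧
      FreeGroup.IsCyclicallyReduced c) := by
  induction K with
  | zero => exact Or.inl ⟨[], l, rfl, by simp [FreeGroup.invRev]⟩
  | succ K ih =>
    rcases ih (by omega) with ⟨p, c, hp, hlc⟩ | ⟨p, c, hp, hlc, hc⟩
    · have hlen : 2 ≤ c.length := by
        have := congrArg List.length hlc
        simp only [List.length_append, FreeGroup.invRev_length] at this
        omega
      obtain ⟨x, m, y, rfl⟩ : ∃ x m y, c = x :: m ++ [y] := by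
        rcases c with _ | ⟨x, c⟩
        · simp at hlen
        · rcases List.eq_nil_or_concat c with rfl | ⟨m, y, rfl⟩
          · simp at hlen
          · exact ⟨x, m, y, by simp⟩
      have hcred : FreeGroup.IsReduced (x :: m ++ [y]) :=
        red_mid p _ (FreeGroup.invRev p) (by rw [← hlc]; exact hl)
      by_cases hxy : y.1 = x.1 → y.2 = x.2
      · right
        refine ⟨p, x :: m ++ [y], by omega, hlc, ?_⟩
        rw [FreeGroup.isCyclicallyReduced_cons_append_iff]
        exact ⟨hcred, hxy⟩
      · left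
        rw [Classical.not_imp] at hxy
        have hy : y = (x.1, !x.2) := by
          obtain ⟨y1, y2⟩ := y
          obtain ⟨x1, x2⟩ := x
          simp only at hxy ⊢
          obtain ⟨rfl, h2⟩ := hxy
          cases y2 <;> cases x2 <;> simp_all
        refine ⟨p ++ [x], m, by simp [hp], ?_⟩
        rw [hlc, hy]
        simp [FreeGroup.invRev]
    · exact Or.inr ⟨p, c, by omega, hlc, hc⟩

end Pool.Agent.Lib.MP_81f2fa_al
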