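import Mathlib
import Pool.Agent.Lib.MP_81f2fa_al.Words

/-!
Counting reduced words with few occurrences of the pattern.
-/

set_option autoImplicit false

namespace Pool.Agent.Lib.MP_81f2fa_al

/-- letters which may follow a letter -/
def nxt (l : Lt) : Finset Lt := Finset.univ.filter (fun m => l.1 = m.1 → l.2 = m.2)

theorem card_nxt (l : Lt) : (nxt l).card = 3 := by
  revert l
  decide

theorem mem_nxt (l m : Lt) : m ∈ nxt l ↔ (l.1 = m.1 → l.2 = m.2) := by
  simp [nxt]

/-- reduced continuations of length `n` after a letter -/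
def cont : ℕ → Lt → Finset (List Lt)
  | 0, _ => {[]}
  | n + 1, l => (nxt l).biUnion (fun m => (cont n m).image (List.cons m))

theorem mem_cont (n : ℕ) (l : Lt) (w : List Lt) :
    w ∈ cont n l ↔ w.length = n ∧ FreeGroup.IsReduced (l :: w) := by
  induction n generalizing l w with
  | zero =>
    rw [cont, Finset.mem_singleton]
    constructor
    · rintro rfl
      exact ⟨rfl, FreeGroup.IsReduced.singleton⟩
    · rintro ⟨h, _⟩
      exact List.eq_nil_of_length_eq_zero h
  | succ n ih =>
    rw [cont]
    simp only [Finset.mem_biUnion, Finset.mem_image]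
    constructor
    · rintro ⟨m, hm, v, hv, rfl⟩
      obtain ⟨h1, h2⟩ := (ih m v).1 hv
      refine ⟨by simp [h1], ?_⟩
      rw [FreeGroup.isReduced_cons_cons]
      exact ⟨(mem_nxt l m).1 hm, h2⟩
    · rintro ⟨h1, h2⟩
      rcases w with _ | ⟨m, v⟩
      · simp at h1
      · rw [FreeGroup.isReduced_cons_cons] at h2
        exact ⟨m, (mem_nxt l m).2 h2.1, v, (ih m v).2 ⟨by simpa using h1, h2.2⟩, rfl⟩

theorem sum_cons {s : Finset Lt} {n : ℕ} (F : List Lt → ℝ) :
    ∑ w ∈ s.biUnion (fun m => (cont n m).image (List.cons m)), F w =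
      ∑ m ∈ s, ∑ w ∈ cont n m, F (m :: w) := by
  rw [Finset.sum_biUnion]
  · refine Finset.sum_congr rfl (fun m _ => ?_)
    rw [Finset.sum_image]
    intro a _ b _ h
    exact (List.cons_injective h)
  · intro a _ b _ hab
    rw [Function.onFun, Finset.disjoint_left]
    intro w hw hw'
    obtain ⟨v, _, rfl⟩ := Finset.mem_image.1 hw
    obtain ⟨v', _, h⟩ := Finset.mem_image.1 hw'
    exact hab (List.head_eq_of_cons_eq h).symm

theorem sum_cont_succ (F : List Lt → ℝ) (n : ℕ) (l : Lt) :
    ∑ w ∈ cont (n + 1) l, F w = ∑ m ∈ nxt l, ∑ w ∈ cont n m, F (m :: w) := by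
  rw [cont, sum_cons]

/-- last letter -/
def lst : Lt → List Lt → Lt
  | l, [] => l
  | _, m :: w => lst m w

theorem sum_cont_add (m n : ℕ) (l : Lt) (F : List Lt → ℝ) :
    ∑ w ∈ cont (m + n) l, F w =
      ∑ u ∈ cont m l, ∑ w ∈ cont n (lst l u), F (u ++ w) := by
  induction m generalizing l F with
  | zero => simp [cont, lst]
  | succ m ih =>
    rw [show m + 1 + n = (m + n) + 1 by omega, sum_cont_succ, sum_cont_succ]
    refine Finset.sum_congr rfl (fun a _ => ?_)
    rw [ih]
    rfl

theorem sum_one_cont (n : ℕ) (l : Lt) : ∑ _w ∈ cont n l, (1 : ℝ) = 3 ^ n := by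
  induction n generalizing l with
  | zero => simp [cont]
  | succ n ih =>
    rw [sum_cont_succ, Finset.sum_congr rfl (fun m _ => ih m), Finset.sum_const, card_nxt]
    ring

/-- the good block after a letter -/
def gb (l : Lt) : List Lt := if l = (0, false) then (1, true) :: pat else pat ++ [(1, true)]

theorem gb_mem (l : Lt) : gb l ∈ cont 9 l := by
  rw [mem_cont]
  obtain ⟨i, b⟩ := l
  fin_cases i <;> cases b <;> simp [gb, pat]

/-- number of good blocks -/
def good : ℕ → Lt → List Lt → ℕ
  | 0, _, _ => 0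
  | N + 1, l, w => (if w.take 9 = gb l then 1 else 0) + good N (lst l (w.take 9)) (w.drop 9)

theorem occ_good (N : ℕ) (l : Lt) (w : List Lt) : Occ (good N l w) (w.take (9 * N)) := by
  induction N generalizing l w with
  | zero => exact Occ.zero _
  | succ N ih =>
    have h := ih (lst l (w.take 9)) (w.drop 9)
    have e : w.take (9 * (N + 1)) = w.take 9 ++ (w.drop 9).take (9 * N) := by
      rw [show 9 * (N + 1) = 9 + 9 * N by ring, List.take_add]
    rw [e, good]
    split_ifs with hg
    · rw [hg] at h ⊢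
      obtain ⟨a, b, hab⟩ : ∃ a b, gb l = a ++ pat ++ b := by
        unfold gb
        split_ifs
        · exact ⟨[(1, true)], [], by simp⟩
        · exact ⟨[], [(1, true)], by simp⟩
      have := h.succ a b
      rw [← hab] at this
      rwa [add_comm]
    · rw [zero_add]
      have := h.append (w.take 9) []
      simpa using this

/-- Exponential moment of the number of good blocks. -/
theorem chernoff (N r : ℕ) (l : Lt) :
    ∑ w ∈ cont (9 * N + r) l, (1 / 2 : ℝ) ^ (good N l w) ≤ (3 ^ 9 - 1 / 2) ^ N * 3 ^ r := by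
  induction N generalizing l with
  | zero =>
    simp only [good, pow_zero, mul_zero, zero_add, one_mul]
    rw [sum_one_cont]
  | succ N ih =>
    rw [show 9 * (N + 1) + r = 9 + (9 * N + r) by ring, sum_cont_add]
    have h1 : ∀ u ∈ cont 9 l, ∑ w ∈ cont (9 * N + r) (lst l u),
        (1 / 2 : ℝ) ^ (good (N + 1) l (u ++ w)) ≤
          (1 - if u = gb l then 1 / 2 else 0) * ((3 ^ 9 - 1 / 2) ^ N * 3 ^ r) := by
      intro u hu
      have hlen := ((mem_cont 9 l u).1 hu).1
      have h2 : ∀ w : List Lt, good (N + 1) l (u ++ w) =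
          (if u = gb l then 1 else 0) + good N (lst l u) w := by
        intro w
        have e1 : (u ++ w).take 9 = u := by
          rw [← hlen]
          exact List.take_left
        have e2 : (u ++ w).drop 9 = w := by
          rw [← hlen]
          exact List.drop_left
        rw [good, e1, e2]
      simp only [h2, pow_add]
      rw [← Finset.mul_sum]
      have h3 : ((1 / 2 : ℝ) ^ (if u = gb l then 1 else 0)) = (1 - if u = gb l then 1 / 2 else 0) := by
        split_ifs <;> norm_num
      rw [h3]
      apply mul_le_mul_of_nonneg_left (ih (lst l u))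
      split_ifs <;> norm_num
    refine (Finset.sum_le_sum h1).trans ?_
    rw [← Finset.sum_mul, Finset.sum_sub_distrib, sum_one_cont, Finset.sum_ite_eq' (cont 9 l) (gb l),
      if_pos (gb_mem l), pow_succ]
    apply le_of_eq
    ring

/-- reduced words of length `n + 1` -/
def redF (n : ℕ) : Finset (List Lt) :=
  Finset.univ.biUnion (fun m : Lt => (cont n m).image (List.cons m))

theorem mem_redF (n : ℕ) (w : List Lt) :
    w ∈ redF n ↔ w.length = n + 1 ∧ FreeGroup.IsReduced w := by
  unfold redF
  simp only [Finset.mem_biUnion, Finset.mem_univ, true_and, Finset.mem_image]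
  constructor
  · rintro ⟨m, v, hv, rfl⟩
    obtain ⟨h1, h2⟩ := (mem_cont n m v).1 hv
    exact ⟨by simp [h1], h2⟩
  · rintro ⟨h1, h2⟩
    rcases w with _ | ⟨m, v⟩
    · simp at h1
    · exact ⟨m, v, (mem_cont n m v).2 ⟨by simpa using h1, h2⟩, rfl⟩

theorem sum_redF (n : ℕ) (F : List Lt → ℝ) :
    ∑ w ∈ redF n, F w = ∑ m : Lt, ∑ w ∈ cont n m, F (m :: w) := by
  unfold redF
  rw [sum_cons]

theorem card_redF (n : ℕ) : ((redF n).card : ℝ) = 4 * 3 ^ n := by
  have h : ((redF n).card : ℝ) = ∑ _w ∈ redF n, (1 : ℝ) := by simp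
  rw [h, sum_redF, Finset.sum_congr rfl (fun m _ => sum_one_cont n m), Finset.sum_const]
  simp

open Classical in
/-- Few words have a deep cyclic reduction. -/
theorem card_bad1 (n K : ℕ) (hK : 2 * K ≤ n) :
    (((redF n).filter (fun w => ∃ p c, p.length = K ∧
      w = p ++ c ++ FreeGroup.invRev p)).card : ℝ) ≤ 4 * 3 ^ (n - K) := by
  rw [← card_redF]
  have := Finset.card_le_card_of_injOn (s := (redF n).filter (fun w => ∃ p c, p.length = K ∧
      w = p ++ c ++ FreeGroup.invRev p)) (t := redF (n - K)) (fun w => w.take (n + 1 - K)) ?_ ?_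
  · exact_mod_cast this
  · intro w hw
    rw [Finset.mem_coe, Finset.mem_filter, mem_redF] at hw
    obtain ⟨⟨h1, h2⟩, _⟩ := hw
    rw [Finset.mem_coe, mem_redF]
    refine ⟨?_, red_mid [] _ (w.drop (n + 1 - K)) (by simpa using h2)⟩
    rw [List.length_take, h1]
    omega
  · intro w hw w' hw' h
    rw [Finset.mem_coe, Finset.mem_filter, mem_redF] at hw hw'
    obtain ⟨⟨h1, _⟩, p, c, hp, rfl⟩ := hw
    obtain ⟨⟨h1', _⟩, p', c', hp', rfl⟩ := hw'
    simp only [List.length_append, FreeGroup.invRev_length] at h1 h1'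
    simp only at h
    have e1 : (p ++ c ++ FreeGroup.invRev p).take (n + 1 - K) = p ++ c := by
      have : n + 1 - K = (p ++ c).length := by
        rw [List.length_append]
        omega
      rw [this, List.take_left]
    have e2 : (p' ++ c' ++ FreeGroup.invRev p').take (n + 1 - K) = p' ++ c' := by
      have : n + 1 - K = (p' ++ c').length := by
        rw [List.length_append]
        omega
      rw [this, List.take_left]
    rw [e1, e2] at h
    obtain ⟨h3, h4⟩ := List.append_inj h (by omega)
    rw [h3, h4]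

open Classical in
/-- Few words have few occurrences of the pattern in the middle. -/
theorem card_bad2 (K N r T : ℕ) :
    (((redF (K + (9 * N + r))).filter
      (fun w => ¬ Occ T ((w.drop (K + 1)).take (9 * N)))).card : ℝ) ≤
      4 * 3 ^ K * (2 ^ T * ((3 ^ 9 - 1 / 2) ^ N * 3 ^ r)) := by
  have h0 : (((redF (K + (9 * N + r))).filter
      (fun w => ¬ Occ T ((w.drop (K + 1)).take (9 * N)))).card : ℝ) =
      ∑ w ∈ redF (K + (9 * N + r)),
        if ¬ Occ T ((w.drop (K + 1)).take (9 * N)) then (1 : ℝ) else 0 := by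
    rw [Finset.card_filter]
    push_cast
    rfl
  rw [h0, sum_redF]
  have h1 : ∀ m : Lt, ∑ w ∈ cont (K + (9 * N + r)) m,
      (if ¬ Occ T (((m :: w).drop (K + 1)).take (9 * N)) then (1 : ℝ) else 0) ≤
      3 ^ K * (2 ^ T * ((3 ^ 9 - 1 / 2) ^ N * 3 ^ r)) := by
    intro m
    rw [sum_cont_add]
    have h2 : ∀ u ∈ cont K m, ∑ w ∈ cont (9 * N + r) (lst m u),
        (if ¬ Occ T (((m :: (u ++ w)).drop (K + 1)).take (9 * N)) then (1 : ℝ) else 0) ≤
          2 ^ T * ((3 ^ 9 - 1 / 2) ^ N * 3 ^ r) := by
      intro u hu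
      have hlen := ((mem_cont K m u).1 hu).1
      have h3 : ∀ w ∈ cont (9 * N + r) (lst m u),
          (if ¬ Occ T (((m :: (u ++ w)).drop (K + 1)).take (9 * N)) then (1 : ℝ) else 0) ≤
            2 ^ T * (1 / 2) ^ (good N (lst m u) w) := by
        intro w _
        have e : (m :: (u ++ w)).drop (K + 1) = w := by
          rw [List.drop_succ_cons, ← hlen]
          exact List.drop_left
        rw [e]
        split_ifs with h4
        · positivity
        · have h5 : good N (lst m u) w < T := by
            by_contra hc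
            push Not at hc
            exact h4 ((occ_good N (lst m u) w).mono hc)
          obtain ⟨k, hk⟩ := Nat.exists_eq_add_of_lt h5
          rw [hk, pow_add, pow_add]
          have h6 : (2 : ℝ) ^ good N (lst m u) w * (1 / 2) ^ good N (lst m u) w = 1 := by
            rw [← mul_pow]
            norm_num
          have h7 : (1 : ℝ) ≤ 2 ^ k := one_le_pow₀ (by norm_num)
          calc (1 : ℝ) ≤ 2 ^ k * 2 := by linarith
            _ = (2 ^ good N (lst m u) w * (1 / 2) ^ good N (lst m u) w) * (2 ^ k * 2) := by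
                rw [h6, one_mul]
            _ = _ := by ring
      refine (Finset.sum_le_sum h3).trans ?_
      rw [← Finset.mul_sum]
      exact mul_le_mul_of_nonneg_left (chernoff N r (lst m u)) (by positivity)
    refine (Finset.sum_le_sum h2).trans ?_
    rw [← sum_one_cont K m, Finset.sum_mul]
    simp
  refine (Finset.sum_le_sum (fun m _ => h1 m)).trans ?_
  rw [Finset.sum_const]
  simp only [Finset.card_univ, nsmul_eq_mul]
  have : (Fintype.card Lt : ℝ) = 4 := by simp [Lt]
  rw [this]
  apply le_of_eq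
  ring

end Pool.Agent.Lib.MP_81f2fa_al
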