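import Mathlib
import Pool.Agent.Lib.MP_81f2fa_al.Lower

set_option autoImplicit false
set_option linter.unusedSimpArgs false

open MvPolynomial

namespace Pool.Agent.Lib.MP_81f2fa_al

/-- Fibonacci-type recursion -/
def Fb {R : Type} [CommSemiring R] : ℕ → R → R
  | 0, _ => 0
  | 1, _ => 1
  | n + 2, t => t * Fb (n + 1) t + Fb n t

theorem map_Fb {R S : Type} [CommSemiring R] [CommSemiring S] (φ : R →+* S) (n : ℕ) (t : R) :
    φ (Fb n t) = Fb n (φ t) := by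
  induction n using Nat.twoStepInduction with
  | zero => simp [Fb]
  | one => simp [Fb]
  | more n ih1 ih2 => simp [Fb, ih1, ih2]

/-- complex polynomials -/
abbrev PC : Type := MvPolynomial (Fin 3) ℂ

/-- the substitution `x ↦ i x` -/
noncomputable def Phi : P →+* PC :=
  eval₂Hom ((C : ℂ →+* PC).comp (Int.castRingHom ℂ)) (fun i => C Complex.I * X i)

theorem Phi_X (t : Fin 3) : Phi (X t) = C Complex.I * X t := by
  simp [Phi]

theorem CI_sq : (C Complex.I : PC) * C Complex.I = -1 := by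
  rw [← C_mul, Complex.I_mul_I, C_neg, C_1]

theorem coeff_Phi (f : P) (m : Fin 3 →₀ ℕ) :
    coeff m (Phi f) = Complex.I ^ (m.sum fun _ e => e) * ((coeff m f : ℤ) : ℂ) := by
  classical
  induction f using MvPolynomial.induction_on' with
  | monomial u a =>
    have h : Phi (monomial u a) = C (Complex.I ^ (u.sum fun _ e => e)) * monomial u (a : ℂ) := by
      rw [Phi, coe_eval₂Hom, eval₂_monomial]
      simp only [mul_pow, Finsupp.prod, Finsupp.sum, Finset.prod_mul_distrib, RingHom.comp_apply]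
      rw [monomial_eq, Finsupp.prod, Finset.prod_pow_eq_pow_sum, ← C_pow, eq_intCast]
      ring
    rw [h, coeff_C_mul, coeff_monomial, coeff_monomial]
    split_ifs with hu
    · subst hu
      rfl
    · simp
  | add p q hp hq =>
    rw [map_add, coeff_add, hp, hq, coeff_add]
    push_cast
    ring

theorem Phi_V (n : ℕ) (t : Fin 3) :
    Phi (V n (X t)) * C Complex.I = C Complex.I ^ n * Fb n (X t) := by
  rw [map_V, Phi_X]
  induction n using Nat.twoStepInduction with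
  | zero => simp [V, Fb]
  | one => simp [V, Fb]
  | more n ih1 ih2 =>
    have e := CI_sq
    simp only [V, Fb]
    linear_combination (C Complex.I * X t) * ih2 - ih1 - (C Complex.I ^ n * Fb n (X t)) * e

/-- first positive part -/
def G1 {R : Type} [CommSemiring R] (x y z : R) (i j k : ℕ) : R :=
  Fb (i + 2) x * Fb (j + 2) y * (Fb (k + 1) z * (z * z)) + (z * Fb (i + 2) x * Fb (j + 2) y * Fb k z
    + Fb (i + 2) x * Fb j y * Fb (k + 1) z + Fb i x * Fb (j + 2) y * Fb (k + 1) z)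

/-- second positive part -/
def G2 {R : Type} [CommSemiring R] (x y z : R) (i j k : ℕ) : R :=
  x * z * Fb (i + 2) x * Fb (j + 1) y * Fb (k + 1) z + x * Fb (i + 2) x * Fb (j + 1) y * Fb k z +
  y * z * Fb (i + 1) x * Fb (j + 2) y * Fb (k + 1) z + y * Fb (i + 1) x * Fb (j + 2) y * Fb k z +
  z * Fb (i + 1) x * Fb (j + 1) y * Fb (k + 1) z + 2 * (Fb (i + 1) x * Fb (j + 1) y * Fb k z)

theorem map_G1 {R S : Type} [CommSemiring R] [CommSemiring S] (φ : R →+* S) (x y z : R)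
    (i j k : ℕ) : φ (G1 x y z i j k) = G1 (φ x) (φ y) (φ z) i j k := by
  simp [G1, map_Fb]

theorem map_G2 {R S : Type} [CommSemiring R] [CommSemiring S] (φ : R →+* S) (x y z : R)
    (i j k : ℕ) : φ (G2 x y z i j k) = G2 (φ x) (φ y) (φ z) i j k := by
  simp [G2, map_Fb, map_ofNat φ 2]

theorem alg_key {R : Type} [CommRing R] (J x y z A2 A1 B2 B1 C1 C0 α2 α1 α0 β2 β1 β0 γ1 γ0 : R)
    (i j k : ℕ) (e : J * J = -1)
    (a2 : A2 * J = J ^ (i + 2) * α2) (a1 : A1 * J = J ^ (i + 1) * α1)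
    (b2 : B2 * J = J ^ (j + 2) * β2) (b1 : B1 * J = J ^ (j + 1) * β1)
    (c1 : C1 * J = J ^ (k + 1) * γ1) (c0 : C0 * J = J ^ k * γ0)
    (ra : α2 = x * α1 + α0) (rb : β2 = y * β1 + β0) :
    (A2 * B2 * C1 * (J * z * (J * z) - 2) - A2 * B2 * C0 * (J * z)
      - A2 * B1 * C1 * (J * x * (J * z) - J * y) + A2 * B1 * C0 * (J * x)
      - A1 * B2 * C1 * (J * y * (J * z) - J * x) + A1 * B2 * C0 * (J * y)
      + A1 * B1 * C1 * (J * z) - 2 * (A1 * B1 * C0)) * J ^ 3 =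
      J ^ (i + j + k) * ((x * z * α2 * β1 * γ1 + x * α2 * β1 * γ0 + y * z * α1 * β2 * γ1 +
        y * α1 * β2 * γ0 + z * α1 * β1 * γ1 + 2 * (α1 * β1 * γ0)) -
        J * (α2 * β2 * (γ1 * (z * z)) + (z * α2 * β2 * γ0 + α2 * β0 * γ1 + α0 * β2 * γ1))) := by
  have e' : J ^ 2 = -1 := by rw [pow_two]; exact e
  have e4 : J ^ 4 = 1 := by
    calc J ^ 4 = (J ^ 2) ^ 2 := by ring
      _ = 1 := by rw [e']; ring
  have T1 : A2 * B2 * C1 * J ^ 3 = J ^ (i + j + k) * (J * (α2 * β2 * γ1)) := by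
    calc A2 * B2 * C1 * J ^ 3 = (A2 * J) * (B2 * J) * (C1 * J) := by ring
      _ = J ^ (i + j + k) * (J ^ 4 * J * (α2 * β2 * γ1)) := by rw [a2, b2, c1]; ring
      _ = _ := by rw [e4]; ring
  have T2 : A2 * B2 * C0 * J ^ 3 = J ^ (i + j + k) * (α2 * β2 * γ0) := by
    calc A2 * B2 * C0 * J ^ 3 = (A2 * J) * (B2 * J) * (C0 * J) := by ring
      _ = J ^ (i + j + k) * (J ^ 4 * (α2 * β2 * γ0)) := by rw [a2, b2, c0]; ring
      _ = _ := by rw [e4]; ring
  have T3 : A2 * B1 * C1 * J ^ 3 = J ^ (i + j + k) * (α2 * β1 * γ1) := by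
    calc A2 * B1 * C1 * J ^ 3 = (A2 * J) * (B1 * J) * (C1 * J) := by ring
      _ = J ^ (i + j + k) * (J ^ 4 * (α2 * β1 * γ1)) := by rw [a2, b1, c1]; ring
      _ = _ := by rw [e4]; ring
  have T4 : A2 * B1 * C0 * J ^ 3 = J ^ (i + j + k) * (- J * (α2 * β1 * γ0)) := by
    calc A2 * B1 * C0 * J ^ 3 = (A2 * J) * (B1 * J) * (C0 * J) := by ring
      _ = J ^ (i + j + k) * (J ^ 2 * J * (α2 * β1 * γ0)) := by rw [a2, b1, c0]; ring
      _ = _ := by rw [e']; ring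
  have T5 : A1 * B2 * C1 * J ^ 3 = J ^ (i + j + k) * (α1 * β2 * γ1) := by
    calc A1 * B2 * C1 * J ^ 3 = (A1 * J) * (B2 * J) * (C1 * J) := by ring
      _ = J ^ (i + j + k) * (J ^ 4 * (α1 * β2 * γ1)) := by rw [a1, b2, c1]; ring
      _ = _ := by rw [e4]; ring
  have T6 : A1 * B2 * C0 * J ^ 3 = J ^ (i + j + k) * (- J * (α1 * β2 * γ0)) := by
    calc A1 * B2 * C0 * J ^ 3 = (A1 * J) * (B2 * J) * (C0 * J) := by ring
      _ = J ^ (i + j + k) * (J ^ 2 * J * (α1 * β2 * γ0)) := by rw [a1, b2, c0]; ring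
      _ = _ := by rw [e']; ring
  have T7 : A1 * B1 * C1 * J ^ 3 = J ^ (i + j + k) * (- J * (α1 * β1 * γ1)) := by
    calc A1 * B1 * C1 * J ^ 3 = (A1 * J) * (B1 * J) * (C1 * J) := by ring
      _ = J ^ (i + j + k) * (J ^ 2 * J * (α1 * β1 * γ1)) := by rw [a1, b1, c1]; ring
      _ = _ := by rw [e']; ring
  have T8 : A1 * B1 * C0 * J ^ 3 = J ^ (i + j + k) * (- (α1 * β1 * γ0)) := by
    calc A1 * B1 * C0 * J ^ 3 = (A1 * J) * (B1 * J) * (C0 * J) := by ring
      _ = J ^ (i + j + k) * (J ^ 2 * (α1 * β1 * γ0)) := by rw [a1, b1, c0]; ring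
      _ = _ := by rw [e']; ring
  have key : (A2 * B2 * C1 * (J * z * (J * z) - 2) - A2 * B2 * C0 * (J * z)
      - A2 * B1 * C1 * (J * x * (J * z) - J * y) + A2 * B1 * C0 * (J * x)
      - A1 * B2 * C1 * (J * y * (J * z) - J * x) + A1 * B2 * C0 * (J * y)
      + A1 * B1 * C1 * (J * z) - 2 * (A1 * B1 * C0)) * J ^ 3 =
      J ^ (i + j + k) * (J * (α2 * β2 * γ1) * (J ^ 2 * (z * z) - 2)
      - (α2 * β2 * γ0) * (J * z)
      - (α2 * β1 * γ1) * (J ^ 2 * (x * z) - J * y) + (- J * (α2 * β1 * γ0)) * (J * x)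
      - (α1 * β2 * γ1) * (J ^ 2 * (y * z) - J * x) + (- J * (α1 * β2 * γ0)) * (J * y)
      + (- J * (α1 * β1 * γ1)) * (J * z) + 2 * (α1 * β1 * γ0)) := by
    linear_combination (J * z * (J * z) - 2) * T1 - (J * z) * T2
      - (J * x * (J * z) - J * y) * T3 + (J * x) * T4
      - (J * y * (J * z) - J * x) * T5 + (J * y) * T6 + (J * z) * T7 - 2 * T8
  rw [key]
  congr 1
  rw [e']
  linear_combination (-(α2 * β1 * γ0) * x - (α1 * β2 * γ0) * y - (α1 * β1 * γ1) * z) * e'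
    + (-(J * β2 * γ1)) * ra - (J * α2 * γ1) * rb

theorem Phi_fP (i j k : ℕ) :
    Phi (fP i j k) * C Complex.I ^ 3 =
      C Complex.I ^ (i + j + k) * (G2 (X 0) (X 1) (X 2) i j k -
        C Complex.I * G1 (X 0) (X 1) (X 2) i j k) := by
  have h2 : Phi 2 = 2 := map_ofNat Phi 2
  simp only [fP, map_add, map_sub, map_mul, h2, Phi_X, G1, G2]
  exact alg_key (C Complex.I) (X 0) (X 1) (X 2) _ _ _ _ _ _ _ _ _ _ _ _ _ _ i j k CI_sq
    (Phi_V (i + 2) 0) (Phi_V (i + 1) 0) (Phi_V (j + 2) 1) (Phi_V (j + 1) 1) (Phi_V (k + 1) 2)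
    (Phi_V k 2) rfl rfl

end Pool.Agent.Lib.MP_81f2fa_al
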