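import Mathlib
import Pool.Agent.Lib.MP_81f2fa_al.Sign

set_option autoImplicit false
set_option linter.unusedSimpArgs false

open MvPolynomial

namespace Pool.Agent.Lib.MP_81f2fa_al

/-- polynomials with natural coefficients -/
abbrev PN : Type := MvPolynomial (Fin 3) ℕ

theorem has_mul {f g : PN} {m m' : Fin 3 →₀ ℕ} (hf : coeff m f ≠ 0) (hg : coeff m' g ≠ 0) :
    coeff (m + m') (f * g) ≠ 0 := by
  classical
  rw [coeff_mul]
  intro h
  have h1 := Finset.sum_eq_zero_iff.1 h (m, m') (by simp)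
  simp only [mul_eq_zero] at h1
  rcases h1 with h1 | h1
  · exact hf h1
  · exact hg h1

theorem has_X_mul {f : PN} {m : Fin 3 →₀ ℕ} (t : Fin 3) (hf : coeff m f ≠ 0) :
    coeff (Finsupp.single t 1 + m) (X t * f) ≠ 0 := by
  apply has_mul _ hf
  simp

theorem has_add_left {f g : PN} {m : Fin 3 →₀ ℕ} (hf : coeff m f ≠ 0) : coeff m (f + g) ≠ 0 := by
  rw [coeff_add]
  omega

theorem has_add_right {f g : PN} {m : Fin 3 →₀ ℕ} (hg : coeff m g ≠ 0) : coeff m (f + g) ≠ 0 := by
  rw [coeff_add]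
  omega

theorem has_Fb (t : Fin 3) (n r : ℕ) (h : 2 * r ≤ n) :
    coeff (Finsupp.single t (n - 2 * r)) (Fb (n + 1) (X t : PN)) ≠ 0 := by
  induction n using Nat.strong_induction_on generalizing r with
  | _ n ih =>
    rcases n with _ | n
    · have : r = 0 := by omega
      subst this
      simp [Fb]
    · show coeff _ (X t * Fb (n + 1) (X t : PN) + Fb n (X t : PN)) ≠ 0
      rcases r with _ | r
      · apply has_add_left
        have h1 := has_X_mul t (ih n (by omega) 0 (by omega))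
        rw [← Finsupp.single_add] at h1
        have e : n + 1 - 2 * 0 = 1 + (n - 2 * 0) := by omega
        rw [e]
        exact h1
      · apply has_add_right
        obtain ⟨m, rfl⟩ : ∃ m, n = m + 1 := ⟨n - 1, by omega⟩
        have h1 := ih m (by omega) r (by omega)
        have e : m + 1 + 1 - 2 * (r + 1) = m - 2 * r := by omega
        rw [e]
        exact h1

theorem has_G1 (i j k t1 t2 t3 : ℕ) (h1 : 2 * t1 ≤ i + 1) (h2 : 2 * t2 ≤ j + 1)
    (h3 : 2 * t3 ≤ k) :
    coeff (Finsupp.single 0 (i + 1 - 2 * t1) + Finsupp.single 1 (j + 1 - 2 * t2) +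
      (Finsupp.single 2 (k - 2 * t3) + (Finsupp.single 2 1 + Finsupp.single 2 1)))
      (G1 (X 0) (X 1) (X 2) i j k : PN) ≠ 0 := by
  apply has_add_left
  refine has_mul (has_mul (has_Fb 0 (i + 1) t1 h1) (has_Fb 1 (j + 1) t2 h2))
    (has_mul (has_Fb 2 k t3 h3) (has_mul ?_ ?_))
  · simp
  · simp

theorem mem_support_fP {i j k : ℕ} {m : Fin 3 →₀ ℕ}
    (h : coeff m (G1 (X 0) (X 1) (X 2) i j k : PN) ≠ 0) : m ∈ (fP i j k).support := by
  rw [mem_support_iff]
  intro h0
  have h1 := congrArg (coeff m) (Phi_fP i j k)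
  have e1 : coeff m (G1 (X 0) (X 1) (X 2) i j k : PC) =
      ((coeff m (G1 (X 0) (X 1) (X 2) i j k : PN) : ℕ) : ℂ) := by
    have := map_G1 (MvPolynomial.map (Nat.castRingHom ℂ) : PN →+* PC) (X 0) (X 1) (X 2) i j k
    rw [map_X, map_X, map_X] at this
    rw [← this, coeff_map]
    rfl
  have e2 : coeff m (G2 (X 0) (X 1) (X 2) i j k : PC) =
      ((coeff m (G2 (X 0) (X 1) (X 2) i j k : PN) : ℕ) : ℂ) := by
    have := map_G2 (MvPolynomial.map (Nat.castRingHom ℂ) : PN →+* PC) (X 0) (X 1) (X 2) i j k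
    rw [map_X, map_X, map_X] at this
    rw [← this, coeff_map]
    rfl
  rw [← C_pow, ← C_pow, mul_comm (Phi (fP i j k)), coeff_C_mul, coeff_Phi, h0, coeff_C_mul,
    coeff_sub, coeff_C_mul, e1, e2] at h1
  simp only [Int.cast_zero, mul_zero] at h1
  have h2 := mul_eq_zero.1 h1.symm
  rcases h2 with h2 | h2
  · exact absurd h2 (pow_ne_zero _ Complex.I_ne_zero)
  · have h3 := congrArg Complex.im h2
    simp at h3
    exact h h3

theorem card_support_fP (i j k : ℕ) :
    ((i + 1) / 2 + 1) * ((j + 1) / 2 + 1) * (k / 2 + 1) ≤ (fP i j k).support.card := by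
  classical
  let s : Finset (ℕ × ℕ × ℕ) :=
    Finset.range ((i + 1) / 2 + 1) ×ˢ (Finset.range ((j + 1) / 2 + 1) ×ˢ Finset.range (k / 2 + 1))
  have hs : s.card = ((i + 1) / 2 + 1) * ((j + 1) / 2 + 1) * (k / 2 + 1) := by
    simp [s, mul_assoc]
  rw [← hs]
  refine Finset.card_le_card_of_injOn (fun t =>
    Finsupp.single 0 (i + 1 - 2 * t.1) + Finsupp.single 1 (j + 1 - 2 * t.2.1) +
      (Finsupp.single 2 (k - 2 * t.2.2) + (Finsupp.single 2 1 + Finsupp.single 2 1))) ?_ ?_
  · rintro ⟨t1, t2, t3⟩ ht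
    simp only [s, Finset.coe_product, Set.mem_prod, Finset.mem_coe, Finset.mem_range] at ht
    exact mem_support_fP (has_G1 i j k t1 t2 t3 (by omega) (by omega) (by omega))
  · rintro ⟨t1, t2, t3⟩ ht ⟨u1, u2, u3⟩ hu htu
    simp only [s, Finset.coe_product, Set.mem_prod, Finset.mem_coe, Finset.mem_range] at ht hu
    simp only at htu
    have h0 := DFunLike.congr_fun htu 0
    have h1 := DFunLike.congr_fun htu 1
    have h2 := DFunLike.congr_fun htu 2
    simp [Finsupp.single_apply] at h0 h1 h2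
    have e0 : t1 = u1 := by omega
    have e1 : t2 = u2 := by omega
    have e2 : t3 = u3 := by omega
    rw [e0, e1, e2]

end Pool.Agent.Lib.MP_81f2fa_al
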