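import Mathlib
import Pool.Agent.Lib.MP_81f2fa_al.Random

/-!
Typical words have trace polynomials with cubically many monomials.
-/

set_option autoImplicit false

namespace Pool.Agent.Lib.MP_81f2fa_al

theorem sum_sq_ge (T : ℕ) :
    (T + 1) ^ 3 ≤ 3 * ∑ k ∈ Finset.range (T + 1), (T - k + 1) * (T - k + 1) := by
  induction T with
  | zero => simp
  | succ T ih =>
    rw [Finset.sum_range_succ']
    have h : ∑ k ∈ Finset.range (T + 1), (T + 1 - (k + 1) + 1) * (T + 1 - (k + 1) + 1) =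
        ∑ k ∈ Finset.range (T + 1), (T - k + 1) * (T - k + 1) := by
      refine Finset.sum_congr rfl (fun k _ => ?_)
      rw [Nat.add_sub_add_right]
    rw [h]
    simp only [Nat.sub_zero]
    nlinarith [ih]

/-- A word whose middle part contains many patterns and whose cyclic reduction is not deep. -/
theorem word_lower (L K N T : ℕ) (hT : 1 ≤ T) (hK1 : 2 * K + 9 * N ≤ L) (w : List Lt)
    (hlen : w.length = L) (hred : FreeGroup.IsReduced w)
    (h1 : ¬ ∃ p c, p.length = K ∧ w = p ++ c ++ FreeGroup.invRev p)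
    (h2 : Occ T ((w.drop K).take (9 * N))) :
    ∃ f : MvPolynomial (Fin 3) ℤ, IsTracePoly (FreeGroup.mk w) f ∧
      (T + 1) ^ 3 ≤ 3 * f.support.card := by
  rcases depth w hred K (by omega) with h | ⟨p, c, hp, hw, hc⟩
  · exact absurd h h1
  · have hm : w = w.take K ++ (w.drop K).take (9 * N) ++ (w.drop K).drop (9 * N) := by
      rw [List.append_assoc, List.take_append_drop, List.take_append_drop]
    obtain ⟨A', hA⟩ : p <+: w.take K := by
      apply List.prefix_of_prefix_length_le (l₃ := w)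
      · exact ⟨c ++ FreeGroup.invRev p, by rw [← List.append_assoc]; exact hw.symm⟩
      · exact List.take_prefix K w
      · rw [List.length_take]
        omega
    obtain ⟨B', hB⟩ : FreeGroup.invRev p <:+ (w.drop K).drop (9 * N) := by
      apply List.suffix_of_suffix_length_le (l₃ := w)
      · exact ⟨p ++ c, hw.symm⟩
      · exact (List.drop_suffix _ _).trans (List.drop_suffix _ _)
      · rw [FreeGroup.invRev_length, List.length_drop, List.length_drop]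
        omega
    have hce : c = A' ++ (w.drop K).take (9 * N) ++ B' := by
      have e : p ++ (c ++ FreeGroup.invRev p) =
          p ++ ((A' ++ (w.drop K).take (9 * N) ++ B') ++ FreeGroup.invRev p) := by
        rw [← List.append_assoc, ← hw]
        nth_rewrite 1 [hm]
        rw [← hA, ← hB]
        simp only [List.append_assoc]
      exact List.append_cancel_right (List.append_cancel_left e)
    have ho : Occ T c := by
      rw [hce]
      exact h2.append A' B'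
    obtain ⟨f, hf, hcard⟩ := many_monomials hT hc ho
    refine ⟨f, ?_, (sum_sq_ge T).trans (Nat.mul_le_mul_left 3 hcard)⟩
    have h3 := hf.conj (FreeGroup.mk p)
    rw [FreeGroup.inv_mk, FreeGroup.mul_mk, FreeGroup.mul_mk, ← hw] at h3
    exact h3

theorem pow_bound (M : ℕ) (hM : 1 ≤ M) : (1 - 1 / (M : ℝ)) ^ M ≤ 3 / 8 := by
  have h := Real.one_sub_div_pow_le_exp_neg (n := M) (t := 1) (by exact_mod_cast hM)
  have h2 : Real.exp (-1) ≤ 3 / 8 := by
    rw [Real.exp_neg]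
    have h3 := Real.exp_one_gt_d9
    rw [inv_le_comm₀ (Real.exp_pos 1) (by norm_num)]
    linarith
  exact h.trans h2

theorem rho_bound (B : ℕ) (hB : 1 ≤ B) : (3 / 4 : ℝ) ≤ (1 - 1 / (4 * (B : ℝ))) ^ B := by
  have hB' : (1 : ℝ) ≤ B := by exact_mod_cast hB
  have h1 : 1 / (4 * (B : ℝ)) ≤ 1 := by
    rw [div_le_one (by positivity)]
    linarith
  have h := one_add_mul_le_pow (a := (-(1 / (4 * (B : ℝ))) : ℝ)) (by linarith) B
  rw [← sub_eq_add_neg] at h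
  refine le_trans ?_ h
  have h2 : (B : ℝ) * -(1 / (4 * (B : ℝ))) = -(1 / 4) := by
    field_simp
  rw [h2]
  norm_num

/-- arithmetic of the bounds -/
theorem bound_core (T K K' N M r n : ℕ) (ρ : ℝ) (hM : 1 ≤ M)
    (hM2 : (3 ^ 9 - 1 / 2 : ℝ) = 3 ^ 9 * (1 - 1 / (M : ℝ)))
    (hMT : M * T ≤ N) (hTK : T ≤ K) (hn : n = K' + (9 * N + r)) (hK : K ≤ n)
    (hq : (3 / 4 : ℝ) ^ (T + 1) ≤ ρ) :
    (4 : ℝ) * 3 ^ (n - K) + 4 * 3 ^ K' * (2 ^ T * ((3 ^ 9 - 1 / 2) ^ N * 3 ^ r)) ≤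
      3 * ρ * (4 * 3 ^ n) := by
  have hM' : (1 : ℝ) ≤ M := by exact_mod_cast hM
  have hx0 : (0 : ℝ) ≤ 1 - 1 / (M : ℝ) := by
    rw [sub_nonneg, div_le_one (by positivity)]
    exact hM'
  have hx1 : (1 - 1 / (M : ℝ)) ≤ 1 := by
    have : (0 : ℝ) ≤ 1 / (M : ℝ) := by positivity
    linarith
  have hfirst : (4 : ℝ) * 3 ^ (n - K) ≤ (3 / 4) ^ T * (4 * 3 ^ n) := by
    have e1 : (3 : ℝ) ^ n = 3 ^ (n - K) * 3 ^ K := by
      rw [← pow_add]
      congr 1
      omega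
    have e2 : (1 : ℝ) ≤ (3 / 4) ^ T * 3 ^ K := by
      calc (1 : ℝ) ≤ (3 / 4 * 3) ^ T := one_le_pow₀ (by norm_num)
        _ = (3 / 4) ^ T * 3 ^ T := mul_pow _ _ _
        _ ≤ (3 / 4) ^ T * 3 ^ K := by
            apply mul_le_mul_of_nonneg_left _ (by positivity)
            exact pow_le_pow_right₀ (by norm_num) hTK
    rw [e1]
    calc (4 : ℝ) * 3 ^ (n - K) = (4 * 3 ^ (n - K)) * 1 := (mul_one _).symm
      _ ≤ (4 * 3 ^ (n - K)) * ((3 / 4) ^ T * 3 ^ K) :=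
          mul_le_mul_of_nonneg_left e2 (by positivity)
      _ = _ := by ring
  have hsecond : (4 : ℝ) * 3 ^ K' * (2 ^ T * ((3 ^ 9 - 1 / 2) ^ N * 3 ^ r)) ≤
      (3 / 4) ^ T * (4 * 3 ^ n) := by
    have e1 : (3 : ℝ) ^ n = 3 ^ K' * ((3 ^ 9) ^ N * 3 ^ r) := by
      rw [← pow_mul, ← pow_add, ← pow_add, ← hn]
    have e3 : (1 - 1 / (M : ℝ)) ^ N ≤ (3 / 8) ^ T := by
      calc (1 - 1 / (M : ℝ)) ^ N ≤ (1 - 1 / (M : ℝ)) ^ (M * T) :=
            pow_le_pow_of_le_one hx0 hx1 hMT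
        _ = ((1 - 1 / (M : ℝ)) ^ M) ^ T := by rw [pow_mul]
        _ ≤ (3 / 8) ^ T := pow_le_pow_left₀ (pow_nonneg hx0 M) (pow_bound M hM) T
    have e4 : (2 : ℝ) ^ T * (3 / 8) ^ T = (3 / 4) ^ T := by
      rw [← mul_pow]
      norm_num
    rw [e1, hM2, mul_pow]
    calc (4 : ℝ) * 3 ^ K' * (2 ^ T * ((3 ^ 9) ^ N * (1 - 1 / (M : ℝ)) ^ N * 3 ^ r))
        = (4 * 3 ^ K' * ((3 ^ 9) ^ N * 3 ^ r)) * (2 ^ T * (1 - 1 / (M : ℝ)) ^ N) := by ring
      _ ≤ (4 * 3 ^ K' * ((3 ^ 9) ^ N * 3 ^ r)) * (2 ^ T * (3 / 8) ^ T) := by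
          apply mul_le_mul_of_nonneg_left _ (by positivity)
          exact mul_le_mul_of_nonneg_left e3 (by positivity)
      _ = _ := by
          rw [e4]
          ring
  have hfin : (3 / 4 : ℝ) ^ T * (4 * 3 ^ n) + (3 / 4) ^ T * (4 * 3 ^ n) ≤
      3 * ρ * (4 * 3 ^ n) := by
    have e5 : (3 / 4 : ℝ) ^ (T + 1) = (3 / 4) ^ T * (3 / 4) := pow_succ _ _
    have e7 : 2 * (3 / 4 : ℝ) ^ T ≤ 3 * ρ := by
      have : (0 : ℝ) ≤ (3 / 4) ^ T := by positivity
      linarith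
    calc (3 / 4 : ℝ) ^ T * (4 * 3 ^ n) + (3 / 4) ^ T * (4 * 3 ^ n)
        = (2 * (3 / 4) ^ T) * (4 * 3 ^ n) := by ring
      _ ≤ _ := mul_le_mul_of_nonneg_right e7 (by positivity)
  linarith

open Classical in
/-- Exceptional words are exponentially rare. -/
theorem typical_core (L T K N M B : ℕ) (hL : 1 ≤ L) (hM : M = 2 * 3 ^ 9) (hB : 1 ≤ B)
    (hLT : L ≤ B * (T + 1)) (hMT : M * T ≤ N) (hTK : T ≤ K) (hK1 : 1 ≤ K) (hT1 : 1 ≤ T)
    (hKN : 2 * K + 9 * N ≤ L) (hKL : 2 * K ≤ L - 1) (hKK : K - 1 + 9 * N ≤ L - 1) :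
    (((redF (L - 1)).filter (fun w => ¬ ∃ f : MvPolynomial (Fin 3) ℤ,
      IsTracePoly (FreeGroup.mk w) f ∧ L ^ 3 ≤ 3 * B ^ 3 * f.support.card)).card : ℝ) ≤
      3 * (1 - 1 / (4 * (B : ℝ))) ^ L * (redF (L - 1)).card := by
  obtain ⟨r, hr⟩ : ∃ r, L - 1 = (K - 1) + (9 * N + r) := ⟨L - 1 - (K - 1) - 9 * N, by omega⟩
  have hsub : (redF (L - 1)).filter (fun w => ¬ ∃ f : MvPolynomial (Fin 3) ℤ,
      IsTracePoly (FreeGroup.mk w) f ∧ L ^ 3 ≤ 3 * B ^ 3 * f.support.card) ⊆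
      (redF (L - 1)).filter (fun w => ∃ p c, p.length = K ∧
        w = p ++ c ++ FreeGroup.invRev p) ∪
      (redF (L - 1)).filter (fun w => ¬ Occ T ((w.drop (K - 1 + 1)).take (9 * N))) := by
    intro w hw
    rw [Finset.mem_filter] at hw
    rw [Finset.mem_union, Finset.mem_filter, Finset.mem_filter]
    by_contra hc
    push Not at hc
    obtain ⟨h1, h2⟩ := hc
    apply hw.2
    have h3 := h1 hw.1
    have h4 := h2 hw.1
    rw [Nat.sub_add_cancel hK1] at h4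
    obtain ⟨hlen, hred⟩ := (mem_redF (L - 1) w).1 hw.1
    obtain ⟨f, hf, hcard⟩ := word_lower L K N T hT1 hKN w (by omega) hred
      (by
        rintro ⟨p, c, hp, hpc⟩
        exact h3 p c hp hpc) h4
    refine ⟨f, hf, ?_⟩
    calc L ^ 3 ≤ (B * (T + 1)) ^ 3 := Nat.pow_le_pow_left hLT 3
      _ = B ^ 3 * (T + 1) ^ 3 := by ring
      _ ≤ B ^ 3 * (3 * f.support.card) := Nat.mul_le_mul_left _ hcard
      _ = 3 * B ^ 3 * f.support.card := by ring
  have hb1 := card_bad1 (L - 1) K hKL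
  have hb2 := card_bad2 (K - 1) N r T
  rw [← hr] at hb2
  have hcard : ((redF (L - 1)).card : ℝ) = 4 * 3 ^ (L - 1) := card_redF (L - 1)
  have hle : (((redF (L - 1)).filter (fun w => ¬ ∃ f : MvPolynomial (Fin 3) ℤ,
      IsTracePoly (FreeGroup.mk w) f ∧ L ^ 3 ≤ 3 * B ^ 3 * f.support.card)).card : ℝ) ≤
      4 * 3 ^ (L - 1 - K) + 4 * 3 ^ (K - 1) * (2 ^ T * ((3 ^ 9 - 1 / 2) ^ N * 3 ^ r)) := by
    have h5 := (Finset.card_le_card hsub).trans (Finset.card_union_le _ _)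
    have h6 : (((redF (L - 1)).filter (fun w => ¬ ∃ f : MvPolynomial (Fin 3) ℤ,
      IsTracePoly (FreeGroup.mk w) f ∧ L ^ 3 ≤ 3 * B ^ 3 * f.support.card)).card : ℝ) ≤
      (((redF (L - 1)).filter (fun w => ∃ p c, p.length = K ∧
        w = p ++ c ++ FreeGroup.invRev p)).card : ℝ) +
      ((redF (L - 1)).filter (fun w => ¬ Occ T ((w.drop (K - 1 + 1)).take (9 * N)))).card := by
      exact_mod_cast h5
    exact h6.trans (add_le_add hb1 hb2)
  refine hle.trans ?_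
  rw [hcard]
  have hB' : (1 : ℝ) ≤ B := by exact_mod_cast hB
  have hy1 : 1 / (4 * (B : ℝ)) ≤ 1 := by
    rw [div_le_one (by positivity)]
    linarith
  have hy0 : 0 ≤ 1 / (4 * (B : ℝ)) := by positivity
  have hq : (3 / 4 : ℝ) ^ (T + 1) ≤ (1 - 1 / (4 * (B : ℝ))) ^ L := by
    calc (3 / 4 : ℝ) ^ (T + 1) ≤ ((1 - 1 / (4 * (B : ℝ))) ^ B) ^ (T + 1) :=
          pow_le_pow_left₀ (by norm_num) (rho_bound B hB) (T + 1)
      _ = (1 - 1 / (4 * (B : ℝ))) ^ (B * (T + 1)) := by rw [← pow_mul]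
      _ ≤ (1 - 1 / (4 * (B : ℝ))) ^ L :=
          pow_le_pow_of_le_one (by linarith) (by linarith) hLT
  refine bound_core T K (K - 1) N M r (L - 1) _ (by rw [hM]; norm_num) ?_ hMT hTK hr (by omega) hq
  rw [hM]
  norm_num

theorem arith (L : ℕ) : L ≤ 708588 * (L / 708588 + 1) ∧
    2 * 3 ^ 9 * (L / 708588) ≤ (L - 2 * (L / 4)) / 9 ∧ L / 708588 ≤ L / 4 ∧
    2 * (L / 4) + 9 * ((L - 2 * (L / 4)) / 9) ≤ L := by
  norm_num
  refine ⟨?_, ?_, ?_, ?_⟩ <;> omega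

open Classical in
/-- Exceptional words are exponentially rare. -/
theorem typical (B : ℕ) (hB : B = 708588) (L : ℕ) (hL : 1 ≤ L) :
    (((redF (L - 1)).filter (fun w => ¬ ∃ f : MvPolynomial (Fin 3) ℤ,
      IsTracePoly (FreeGroup.mk w) f ∧ L ^ 3 ≤ 3 * B ^ 3 * f.support.card)).card : ℝ) ≤
      3 * (1 - 1 / (4 * (B : ℝ))) ^ L * (redF (L - 1)).card := by
  obtain ⟨T, K, N, hLT, hMT, hTK, hKN, hK⟩ : ∃ T K N, L ≤ B * (T + 1) ∧ 2 * 3 ^ 9 * T ≤ N ∧
      T ≤ K ∧ 2 * K + 9 * N ≤ L ∧ 4 * K ≤ L := by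
    obtain ⟨h1, h2, h3, h4⟩ := arith L
    exact ⟨L / 708588, L / 4, (L - 2 * (L / 4)) / 9, by rw [hB]; exact h1, h2, h3, h4, by omega⟩
  have hB1 : 1 ≤ B := by omega
  have hB' : (1 : ℝ) ≤ B := by exact_mod_cast hB1
  have hy1 : 1 / (4 * (B : ℝ)) ≤ 1 := by
    rw [div_le_one (by positivity)]
    linarith
  clear hB
  rcases Nat.eq_zero_or_pos T with hT0 | hT1
  · -- short words
    subst hT0
    have h : (redF (L - 1)).filter (fun w => ¬ ∃ f : MvPolynomial (Fin 3) ℤ,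
      IsTracePoly (FreeGroup.mk w) f ∧ L ^ 3 ≤ 3 * B ^ 3 * f.support.card) = ∅ := by
      apply Finset.filter_eq_empty_iff.2
      intro w _ hn
      apply hn
      obtain ⟨f, hf, _⟩ := existsUnique_tracePoly (FreeGroup.mk w)
      refine ⟨f, hf, ?_⟩
      have h1 : 1 ≤ f.support.card := by
        apply Finset.card_pos.2
        rw [Finset.nonempty_iff_ne_empty, ne_eq, MvPolynomial.support_eq_empty]
        exact hf.ne_zero
      have h2 : L ≤ B := by omega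
      calc L ^ 3 ≤ B ^ 3 := Nat.pow_le_pow_left h2 3
        _ ≤ 3 * B ^ 3 * 1 := by omega
        _ ≤ 3 * B ^ 3 * f.support.card := Nat.mul_le_mul_left _ h1
    rw [h]
    simp only [Finset.card_empty, Nat.cast_zero]
    have : (0 : ℝ) ≤ (1 - 1 / (4 * (B : ℝ))) ^ L := pow_nonneg (by linarith) L
    positivity
  · exact typical_core L T K N (2 * 3 ^ 9) B hL rfl hB1 hLT hMT hTK (by omega) hT1 hKN
      (by omega) (by omega)

end Pool.Agent.Lib.MP_81f2fa_al
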